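import Mathlib

/-! Irrationality measure of the numbers of the construction. -/

set_option autoImplicit false

namespace Pool.Agent.J4.H24.WS

open Finset

/-- `x` is approximated by fractions with denominators `9^(n k)` to the precision `9^(-m k)` -/
structure Apx (τ : ℝ) (n m : ℕ → ℕ) (x : ℝ) : Prop where
  n0 : n 0 = 1
  succ : ∀ k, n (k + 1) = n k + m k
  lo : ∀ k, τ * n k ≤ m k
  hi : ∀ k, (m k : ℝ) < τ * n k + 1
  app : ∀ k, ∃ (a : ℤ) (β : ℝ), ¬ (3 : ℤ) ∣ a ∧ x = a / 9 ^ (n k) + β ∧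
    (1 / 9 : ℝ) ^ (m k) ≤ β ∧ β ≤ 3 * (1 / 9 : ℝ) ^ (m k)

variable {τ : ℝ} {n m : ℕ → ℕ} {x : ℝ}

lemma Apx.n_pos (h : Apx τ n m x) (k : ℕ) : 1 ≤ n k := by
  induction k with
  | zero => rw [h.n0]
  | succ k ih => rw [h.succ]; omega

lemma Apx.m_ge (h : Apx τ n m x) (hτ : 3 ≤ τ) (k : ℕ) : 3 * n k ≤ m k := by
  have h1 := h.lo k
  have h2 : (3 : ℝ) * n k ≤ m k := by nlinarith [show (0 : ℝ) ≤ n k by positivity]
  exact_mod_cast h2

lemma Apx.n_ge (h : Apx τ n m x) (hτ : 3 ≤ τ) (k : ℕ) : k + 1 ≤ n k := by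
  induction k with
  | zero => rw [h.n0]
  | succ k ih =>
    have := h.m_ge hτ k
    rw [h.succ]; omega

theorem Apx.measure (h : Apx τ n m x) (hτ : 3 ≤ τ) (a : ℤ) (q : ℕ) (hq : 1 ≤ q) :
    (1 / (2 * (12 : ℝ) ^ (τ - 1))) / (q : ℝ) ^ τ ≤ |2 * x - a / q| := by
  have hq0 : (0 : ℝ) < q := by exact_mod_cast hq
  have hq1 : (1 : ℝ) ≤ q := by exact_mod_cast hq
  have h12 : (144 : ℝ) ≤ (12 : ℝ) ^ (τ - 1) := by
    calc (144 : ℝ) = (12 : ℝ) ^ (2 : ℝ) := by norm_num
      _ ≤ _ := Real.rpow_le_rpow_of_exponent_le (by norm_num) (by linarith)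
  have hqτ : 0 < (q : ℝ) ^ τ := Real.rpow_pos_of_pos hq0 _
  have hex : ∃ k, 12 * q * 9 ^ (n k) ≤ 9 ^ (m k) := by
    refine ⟨q, ?_⟩
    have h1 := h.m_ge hτ q
    have h2 := h.n_ge hτ q
    have h3 : q < 9 ^ q := Nat.lt_pow_self (by norm_num)
    calc 12 * q * 9 ^ (n q) ≤ 12 * 9 ^ q * 9 ^ (n q) := by
          apply Nat.mul_le_mul_right
          apply Nat.mul_le_mul_left; exact h3.le
      _ ≤ 9 ^ 2 * 9 ^ q * 9 ^ (n q) := by
          apply Nat.mul_le_mul_right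
          apply Nat.mul_le_mul_right; norm_num
      _ = 9 ^ (2 + q + n q) := by rw [pow_add, pow_add]
      _ ≤ _ := Nat.pow_le_pow_right (by norm_num) (by omega)
  classical
  obtain ⟨k, hk, hmin⟩ : ∃ k, 12 * q * 9 ^ (n k) ≤ 9 ^ (m k) ∧
      ∀ j, j < k → ¬ 12 * q * 9 ^ (n j) ≤ 9 ^ (m j) :=
    ⟨Nat.find hex, Nat.find_spec hex, fun j hj => Nat.find_min hex hj⟩
  obtain ⟨ak, β, h3a, hx, hβ1, hβ2⟩ := h.app k
  have h9n : (0 : ℝ) < 9 ^ (n k) := by positivity
  have h9m : (0 : ℝ) < 9 ^ (m k) := by positivity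
  have e19 : (1 / 9 : ℝ) ^ (m k) = 1 / 9 ^ (m k) := by rw [one_div_pow]
  rw [e19] at hβ1 hβ2
  have hβ0 : 0 < β := lt_of_lt_of_le (by positivity) hβ1
  by_cases heq : a * 9 ^ (n k) = 2 * ak * q
  · -- the fraction is `2 a_k / 9^(n k)`
    have hco : IsCoprime ((9 : ℤ) ^ (n k)) (2 * ak) := by
      apply IsCoprime.pow_left
      have h3 : IsCoprime (3 : ℤ) (2 * ak) := by
        rw [Prime.coprime_iff_not_dvd Int.prime_three]
        intro h4
        rcases Int.prime_three.dvd_or_dvd h4 with h5 | h5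
        · norm_num at h5
        · exact h3a h5
      have : (9 : ℤ) = 3 ^ 2 := by norm_num
      rw [this]
      exact h3.pow_left
    have hdvd : (9 : ℤ) ^ (n k) ∣ (q : ℤ) := by
      apply hco.dvd_of_dvd_mul_left
      exact ⟨a, by rw [← heq]; ring⟩
    have hle : (9 : ℝ) ^ (n k) ≤ q := by
      have := Int.le_of_dvd (by exact_mod_cast hq) hdvd
      exact_mod_cast this
    have e : 2 * x - a / q = 2 * β := by
      have h1 : (a : ℝ) / q = 2 * ak / 9 ^ (n k) := by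
        rw [div_eq_div_iff hq0.ne' h9n.ne']
        exact_mod_cast heq
      rw [h1, hx]; ring
    rw [e, abs_of_pos (by positivity)]
    have h1 : (9 : ℝ) ^ (m k) ≤ 9 * (q : ℝ) ^ τ := by
      have h2 : (9 : ℝ) ^ (m k) = (9 : ℝ) ^ ((m k : ℕ) : ℝ) := (Real.rpow_natCast _ _).symm
      rw [h2]
      calc (9 : ℝ) ^ ((m k : ℕ) : ℝ) ≤ (9 : ℝ) ^ (τ * n k + 1) :=
            Real.rpow_le_rpow_of_exponent_le (by norm_num) (h.hi k).le
        _ = 9 * ((9 : ℝ) ^ (n k)) ^ τ := by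
            rw [Real.rpow_add (by norm_num), Real.rpow_one, mul_comm τ, Real.rpow_mul (by norm_num),
              Real.rpow_natCast]
            ring
        _ ≤ 9 * (q : ℝ) ^ τ := by
            apply mul_le_mul_of_nonneg_left _ (by norm_num)
            exact Real.rpow_le_rpow h9n.le hle (by linarith)
    calc (1 / (2 * (12 : ℝ) ^ (τ - 1))) / (q : ℝ) ^ τ ≤ (1 / 9) / (q : ℝ) ^ τ := by
          apply div_le_div_of_nonneg_right _ hqτ.le
          apply one_div_le_one_div_of_le (by norm_num)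
          linarith
      _ = 1 / (9 * (q : ℝ) ^ τ) := by rw [div_div]
      _ ≤ 1 / 9 ^ (m k) := one_div_le_one_div_of_le h9m h1
      _ ≤ 2 * β := by linarith
  · -- another fraction
    have h1 : (1 : ℝ) ≤ |(a : ℝ) * 9 ^ (n k) - 2 * ak * q| := by
      have : (1 : ℤ) ≤ |a * 9 ^ (n k) - 2 * ak * q| := Int.one_le_abs (sub_ne_zero.2 heq)
      exact_mod_cast this
    have h2 : |(a : ℝ) / q - 2 * ak / 9 ^ (n k)| = |(a : ℝ) * 9 ^ (n k) - 2 * ak * q| / (q * 9 ^ (n k)) := by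
      rw [div_sub_div _ _ hq0.ne' h9n.ne', abs_div, abs_of_pos (show 0 < (q : ℝ) * 9 ^ (n k) by positivity)]
      congr 2
      ring
    have h3 : 1 / (q * 9 ^ (n k)) ≤ |(a : ℝ) / q - 2 * ak / 9 ^ (n k)| := by
      rw [h2]
      exact div_le_div_of_nonneg_right h1 (by positivity)
    have h4 : |(a : ℝ) / q - 2 * ak / 9 ^ (n k)| ≤ |2 * x - a / q| + 2 * β := by
      have e : (a : ℝ) / q - 2 * ak / 9 ^ (n k) = 2 * β - (2 * x - a / q) := by rw [hx]; ring
      rw [e]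
      have := abs_sub (2 * β) (2 * x - a / q)
      rw [abs_of_pos (show 0 < 2 * β by positivity)] at this
      linarith
    have h5 : 2 * β ≤ 1 / (2 * (q * 9 ^ (n k))) := by
      have h6 : 2 * β ≤ 6 / 9 ^ (m k) := by
        have : 3 * (1 / (9 : ℝ) ^ (m k)) = 3 / 9 ^ (m k) := by ring
        rw [this] at hβ2
        have : (6 : ℝ) / 9 ^ (m k) = 2 * (3 / 9 ^ (m k)) := by ring
        linarith
      refine h6.trans ?_
      rw [div_le_div_iff₀ h9m (by positivity)]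
      have hk' : (12 : ℝ) * q * 9 ^ (n k) ≤ 9 ^ (m k) := by exact_mod_cast hk
      linarith
    have h6 : 1 / (2 * (q * 9 ^ (n k))) ≤ |2 * x - a / q| := by
      have e : 1 / ((q : ℝ) * 9 ^ (n k)) = 1 / (2 * (q * 9 ^ (n k))) + 1 / (2 * (q * 9 ^ (n k))) := by
        field_simp; norm_num
      linarith
    refine le_trans ?_ h6
    have h7 : (9 : ℝ) ^ (n k) ≤ (12 * (q : ℝ)) ^ (τ - 1) := by
      rcases Nat.eq_zero_or_pos k with hk0 | hk0
      · rw [hk0, h.n0, pow_one]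
        calc (9 : ℝ) ≤ 12 * q := by linarith
          _ = (12 * (q : ℝ)) ^ (1 : ℝ) := (Real.rpow_one _).symm
          _ ≤ _ := Real.rpow_le_rpow_of_exponent_le (by linarith) (by linarith)
      · obtain ⟨j, rfl⟩ : ∃ j, k = j + 1 := ⟨k - 1, by omega⟩
        have h8 := hmin j (by omega)
        push Not at h8
        have h9 : (9 : ℝ) ^ (m j) < 12 * q * 9 ^ (n j) := by exact_mod_cast h8
        have h10 : (9 : ℝ) ^ ((m j : ℝ) - n j) ≤ 12 * q := by
          rw [Real.rpow_sub (by norm_num), Real.rpow_natCast, Real.rpow_natCast,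
            div_le_iff₀ (by positivity)]
          exact h9.le
        have h11 : (m j : ℝ) + n j ≤ ((m j : ℝ) - n j) * (τ - 1) := by
          have a1 := h.lo j
          have a2 : (1 : ℝ) ≤ n j := by exact_mod_cast h.n_pos j
          have a3 : (τ - 2) * (τ * n j) ≤ (τ - 2) * m j :=
            mul_le_mul_of_nonneg_left a1 (by linarith)
          nlinarith [mul_nonneg (mul_nonneg (show 0 ≤ τ by linarith) (show 0 ≤ τ - 3 by linarith))
            (show (0 : ℝ) ≤ n j by positivity)]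
        calc (9 : ℝ) ^ (n (j + 1)) = (9 : ℝ) ^ ((m j : ℝ) + n j) := by
              rw [h.succ, ← Real.rpow_natCast]
              congr 1
              push_cast
              ring
          _ ≤ (9 : ℝ) ^ (((m j : ℝ) - n j) * (τ - 1)) :=
              Real.rpow_le_rpow_of_exponent_le (by norm_num) h11
          _ = ((9 : ℝ) ^ ((m j : ℝ) - n j)) ^ (τ - 1) := Real.rpow_mul (by norm_num) _ _
          _ ≤ _ := Real.rpow_le_rpow (by positivity) h10 (by linarith)
    rw [div_div]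
    apply one_div_le_one_div_of_le (by positivity)
    have e : (q : ℝ) ^ τ = q * (q : ℝ) ^ (τ - 1) := by
      nth_rewrite 2 [← Real.rpow_one (q : ℝ)]
      rw [← Real.rpow_add hq0]
      congr 1; ring
    rw [e, Real.mul_rpow (by norm_num) hq0.le] at *
    have := mul_le_mul_of_nonneg_left h7 (show (0 : ℝ) ≤ 2 * q by positivity)
    calc 2 * ((q : ℝ) * 9 ^ (n k)) = 2 * q * 9 ^ (n k) := by ring
      _ ≤ 2 * q * (12 ^ (τ - 1) * (q : ℝ) ^ (τ - 1)) := this
      _ = _ := by ring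

end Pool.Agent.J4.H24.WS
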