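import Mathlib
import Pool.Agent.J4.H24.WS.Meas

/-! The family of numbers `X y`, `0 ≤ y < 1`. -/

set_option autoImplicit false

namespace Pool.Agent.J4.H24.WS

open Finset

/-- the exponents `n_k` -/
noncomputable def nn (τ : ℝ) : ℕ → ℕ
  | 0 => 1
  | k + 1 => nn τ k + ⌈τ * (nn τ k : ℝ)⌉₊

/-- the exponents `m_k` -/
noncomputable def mm (τ : ℝ) (k : ℕ) : ℕ := ⌈τ * (nn τ k : ℝ)⌉₊

lemma nn_succ (τ : ℝ) (k : ℕ) : nn τ (k + 1) = nn τ k + mm τ k := rfl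

lemma mm_lo (τ : ℝ) (k : ℕ) : τ * nn τ k ≤ mm τ k := Nat.le_ceil _

lemma mm_hi (τ : ℝ) (hτ : 0 ≤ τ) (k : ℕ) : (mm τ k : ℝ) < τ * nn τ k + 1 :=
  Nat.ceil_lt_add_one (by positivity)

lemma nn_pos (τ : ℝ) (k : ℕ) : 1 ≤ nn τ k := by
  induction k with
  | zero => exact le_rfl
  | succ k ih => rw [nn_succ]; omega

lemma mm_pos (τ : ℝ) (hτ : 3 ≤ τ) (k : ℕ) : 1 ≤ mm τ k := by
  have h1 := mm_lo τ k
  have h2 : (1 : ℝ) ≤ nn τ k := by exact_mod_cast nn_pos τ k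
  have h3 : (1 : ℝ) ≤ mm τ k := by nlinarith
  exact_mod_cast h3

lemma nn_add (τ : ℝ) (hτ : 3 ≤ τ) (k i : ℕ) : nn τ k + i ≤ nn τ (k + i) := by
  induction i with
  | zero => simp
  | succ i ih =>
    rw [← add_assoc, ← add_assoc, nn_succ]
    have := mm_pos τ hτ (k + i)
    omega

lemma nn_ge (τ : ℝ) (hτ : 3 ≤ τ) (k : ℕ) : k + 1 ≤ nn τ k := by
  have := nn_add τ hτ 0 k
  rw [zero_add] at this
  have h1 : nn τ 0 = 1 := rfl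
  omega

/-- the `k`-th term -/
noncomputable def uu (τ : ℝ) (y : ℝ) (k : ℕ) : ℝ :=
  (1 / 9 : ℝ) ^ (nn τ k) + (1 / 9 : ℝ) ^ (mm τ k) +
    (⌊(9 : ℝ) ^ (nn τ k - 1) * y⌋ : ℝ) * (1 / 9 : ℝ) ^ (nn τ (k + 1) - 1)

/-- the number `X y` -/
noncomputable def XX (τ : ℝ) (y : ℝ) : ℝ := ∑' k, uu τ y k

variable {τ : ℝ}

lemma third_nonneg (y : ℝ) (hy0 : 0 ≤ y) (k : ℕ) :
    0 ≤ (⌊(9 : ℝ) ^ (nn τ k - 1) * y⌋ : ℝ) * (1 / 9 : ℝ) ^ (nn τ (k + 1) - 1) := by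
  apply mul_nonneg _ (by positivity)
  have : 0 ≤ ⌊(9 : ℝ) ^ (nn τ k - 1) * y⌋ := Int.floor_nonneg.2 (by positivity)
  exact_mod_cast this

lemma third_le (y : ℝ) (hy1 : y < 1) (k : ℕ) :
    (⌊(9 : ℝ) ^ (nn τ k - 1) * y⌋ : ℝ) * (1 / 9 : ℝ) ^ (nn τ (k + 1) - 1) ≤
      (1 / 9 : ℝ) ^ (mm τ k) := by
  have h1 : (⌊(9 : ℝ) ^ (nn τ k - 1) * y⌋ : ℝ) ≤ (9 : ℝ) ^ (nn τ k - 1) := by
    refine (Int.floor_le _).trans ?_
    have : (0 : ℝ) < (9 : ℝ) ^ (nn τ k - 1) := by positivity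
    nlinarith
  have h2 := nn_pos τ k
  calc _ ≤ (9 : ℝ) ^ (nn τ k - 1) * (1 / 9 : ℝ) ^ (nn τ (k + 1) - 1) :=
        mul_le_mul_of_nonneg_right h1 (by positivity)
    _ = (9 : ℝ) ^ (nn τ k - 1) * ((1 / 9 : ℝ) ^ (nn τ k - 1) * (1 / 9 : ℝ) ^ (mm τ k)) := by
        rw [← pow_add]
        congr 2
        rw [nn_succ]; omega
    _ = ((9 : ℝ) ^ (nn τ k - 1) * (1 / 9 : ℝ) ^ (nn τ k - 1)) * (1 / 9 : ℝ) ^ (mm τ k) := by ring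
    _ = _ := by rw [← mul_pow]; norm_num

lemma mm_ge (hτ : 3 ≤ τ) (k : ℕ) : nn τ k ≤ mm τ k := by
  have h1 := mm_lo τ k
  have h2 : (nn τ k : ℝ) ≤ mm τ k := by nlinarith [show (0 : ℝ) ≤ nn τ k by positivity]
  exact_mod_cast h2

lemma uu_nonneg (y : ℝ) (hy0 : 0 ≤ y) (k : ℕ) : 0 ≤ uu τ y k := by
  have := third_nonneg (τ := τ) y hy0 k
  unfold uu
  positivity

lemma uu_le (hτ : 3 ≤ τ) (y : ℝ) (hy1 : y < 1) (k : ℕ) : uu τ y k ≤ 3 * (1 / 9 : ℝ) ^ (nn τ k) := by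
  have h1 := third_le (τ := τ) y hy1 k
  have h2 : (1 / 9 : ℝ) ^ (mm τ k) ≤ (1 / 9 : ℝ) ^ (nn τ k) :=
    pow_le_pow_of_le_one (by norm_num) (by norm_num) (mm_ge hτ k)
  unfold uu
  linarith

lemma uu_shift_le (hτ : 3 ≤ τ) (y : ℝ) (hy1 : y < 1) (k i : ℕ) :
    uu τ y (i + k) ≤ 3 * (1 / 9 : ℝ) ^ (nn τ k) * (1 / 9 : ℝ) ^ i := by
  refine (uu_le hτ y hy1 _).trans ?_
  rw [mul_assoc, ← pow_add]
  apply mul_le_mul_of_nonneg_left _ (by norm_num)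
  apply pow_le_pow_of_le_one (by norm_num) (by norm_num)
  rw [add_comm i k]
  exact nn_add τ hτ k i

lemma summable_geo (c : ℝ) : Summable (fun i : ℕ => c * (1 / 9 : ℝ) ^ i) :=
  (summable_geometric_of_lt_one (by norm_num) (by norm_num)).mul_left c

lemma summable_shift (hτ : 3 ≤ τ) (y : ℝ) (hy0 : 0 ≤ y) (hy1 : y < 1) (k : ℕ) :
    Summable (fun i => uu τ y (i + k)) :=
  Summable.of_nonneg_of_le (fun _ => uu_nonneg y hy0 _) (fun i => uu_shift_le hτ y hy1 k i)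
    (summable_geo _)

lemma summable_uu (hτ : 3 ≤ τ) (y : ℝ) (hy0 : 0 ≤ y) (hy1 : y < 1) : Summable (uu τ y) :=
  summable_shift hτ y hy0 hy1 0

lemma tail_le (hτ : 3 ≤ τ) (y : ℝ) (hy0 : 0 ≤ y) (hy1 : y < 1) (k : ℕ) :
    ∑' i, uu τ y (i + k) ≤ 4 * (1 / 9 : ℝ) ^ (nn τ k) := by
  calc ∑' i, uu τ y (i + k) ≤ ∑' i, 3 * (1 / 9 : ℝ) ^ (nn τ k) * (1 / 9 : ℝ) ^ i :=
        (summable_shift hτ y hy0 hy1 k).tsum_le_tsum (fun i => uu_shift_le hτ y hy1 k i)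
          (summable_geo _)
    _ = 3 * (1 / 9 : ℝ) ^ (nn τ k) * (9 / 8) := by
        rw [tsum_mul_left, tsum_geometric_of_lt_one (by norm_num) (by norm_num)]
        norm_num
    _ ≤ _ := by
        have : (0 : ℝ) < (1 / 9 : ℝ) ^ (nn τ k) := by positivity
        nlinarith

lemma tail_nonneg (y : ℝ) (hy0 : 0 ≤ y) (k : ℕ) : 0 ≤ ∑' i, uu τ y (i + k) :=
  tsum_nonneg fun _ => uu_nonneg y hy0 _

lemma XX_split (hτ : 3 ≤ τ) (y : ℝ) (hy0 : 0 ≤ y) (hy1 : y < 1) (k : ℕ) :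
    XX τ y = ∑ i ∈ range k, uu τ y i + ∑' i, uu τ y (i + k) :=
  ((summable_uu hτ y hy0 hy1).sum_add_tsum_nat_add k).symm

/-- integrality of the partial sums -/
lemma part_int (hτ : 3 ≤ τ) (y : ℝ) (k : ℕ) :
    ∃ z : ℤ, ∑ i ∈ range k, uu τ y i = 9 * z / 9 ^ (nn τ k) := by
  induction k with
  | zero => exact ⟨0, by simp⟩
  | succ k ih =>
    obtain ⟨z, hz⟩ := ih
    have h1 := nn_pos τ k
    have h2 := mm_pos τ hτ k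
    refine ⟨z * 9 ^ (mm τ k) + 9 ^ (mm τ k - 1) + 9 ^ (nn τ k - 1) +
      ⌊(9 : ℝ) ^ (nn τ k - 1) * y⌋, ?_⟩
    rw [sum_range_succ, hz]
    unfold uu
    set F : ℤ := ⌊(9 : ℝ) ^ (nn τ k - 1) * y⌋
    obtain ⟨n', hn'⟩ : ∃ n', nn τ k = n' + 1 := ⟨nn τ k - 1, by omega⟩
    obtain ⟨m', hm'⟩ : ∃ m', mm τ k = m' + 1 := ⟨mm τ k - 1, by omega⟩
    have e1 : nn τ (k + 1) = (n' + 1) + (m' + 1) := by rw [nn_succ, hn', hm']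
    rw [e1, hn', hm']
    have e2 : n' + 1 + (m' + 1) - 1 = n' + m' + 1 := by omega
    rw [e2, Nat.add_sub_cancel, Nat.add_sub_cancel]
    push_cast
    rw [one_div_pow, one_div_pow, one_div_pow]
    have h9n : (9 : ℝ) ^ n' ≠ 0 := by positivity
    have h9m : (9 : ℝ) ^ m' ≠ 0 := by positivity
    rw [pow_add, pow_add, pow_add, pow_add, pow_one]
    field_simp
    ring

lemma XX_app (hτ : 3 ≤ τ) (y : ℝ) (hy0 : 0 ≤ y) (hy1 : y < 1) (k : ℕ) :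
    ∃ (a : ℤ) (β : ℝ), ¬ (3 : ℤ) ∣ a ∧ XX τ y = a / 9 ^ (nn τ k) + β ∧
    (1 / 9 : ℝ) ^ (mm τ k) ≤ β ∧ β ≤ 3 * (1 / 9 : ℝ) ^ (mm τ k) := by
  obtain ⟨z, hz⟩ := part_int hτ y k
  have h1 := XX_split hτ y hy0 hy1 (k + 1)
  rw [sum_range_succ] at h1
  have h2 := tail_le hτ y hy0 hy1 (k + 1)
  have h3 := tail_nonneg (τ := τ) y hy0 (k + 1)
  have h4 := third_nonneg (τ := τ) y hy0 k
  have h5 := third_le (τ := τ) y hy1 k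
  have h6 : 4 * (1 / 9 : ℝ) ^ (nn τ (k + 1)) ≤ (1 / 9 : ℝ) ^ (mm τ k) := by
    have h7 := nn_pos τ k
    calc 4 * (1 / 9 : ℝ) ^ (nn τ (k + 1)) ≤ 4 * (1 / 9 : ℝ) ^ (mm τ k + 1) := by
          apply mul_le_mul_of_nonneg_left _ (by norm_num)
          apply pow_le_pow_of_le_one (by norm_num) (by norm_num)
          rw [nn_succ]; omega
      _ ≤ _ := by
          rw [pow_succ]
          have : (0 : ℝ) < (1 / 9 : ℝ) ^ (mm τ k) := by positivity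
          linarith
  refine ⟨9 * z + 1, XX τ y - ((9 * z + 1 : ℤ) : ℝ) / 9 ^ (nn τ k), by omega, by ring, ?_, ?_⟩
  · have e : ((9 * z + 1 : ℤ) : ℝ) / 9 ^ (nn τ k) = ∑ i ∈ range k, uu τ y i + (1 / 9 : ℝ) ^ (nn τ k) := by
      rw [hz, one_div_pow]; push_cast; ring
    rw [e, h1]
    have e2 : uu τ y k = (1 / 9 : ℝ) ^ (nn τ k) + (1 / 9 : ℝ) ^ (mm τ k) +
      (⌊(9 : ℝ) ^ (nn τ k - 1) * y⌋ : ℝ) * (1 / 9 : ℝ) ^ (nn τ (k + 1) - 1) := rfl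
    linarith
  · have e : ((9 * z + 1 : ℤ) : ℝ) / 9 ^ (nn τ k) = ∑ i ∈ range k, uu τ y i + (1 / 9 : ℝ) ^ (nn τ k) := by
      rw [hz, one_div_pow]; push_cast; ring
    rw [e, h1]
    have e2 : uu τ y k = (1 / 9 : ℝ) ^ (nn τ k) + (1 / 9 : ℝ) ^ (mm τ k) +
      (⌊(9 : ℝ) ^ (nn τ k - 1) * y⌋ : ℝ) * (1 / 9 : ℝ) ^ (nn τ (k + 1) - 1) := rfl
    linarith

theorem XX_apx (hτ : 3 ≤ τ) (y : ℝ) (hy0 : 0 ≤ y) (hy1 : y < 1) :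
    Apx τ (nn τ) (mm τ) (XX τ y) where
  n0 := rfl
  succ := fun k => rfl
  lo := mm_lo τ
  hi := mm_hi τ (by linarith)
  app := XX_app hτ y hy0 hy1

lemma XX_mem (hτ : 3 ≤ τ) (y : ℝ) (hy0 : 0 ≤ y) (hy1 : y < 1) : XX τ y ∈ Set.Ico (0 : ℝ) 1 := by
  have h1 := XX_split hτ y hy0 hy1 0
  rw [range_zero, sum_empty, zero_add] at h1
  constructor
  · rw [h1]; exact tail_nonneg y hy0 0
  · rw [h1]
    have h2 := tail_le hτ y hy0 hy1 0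
    have h3 : nn τ 0 = 1 := rfl
    rw [h3, pow_one] at h2
    linarith

/-- the separation property -/
lemma XX_sep (hτ : 3 ≤ τ) (y y' : ℝ) (hy0 : 0 ≤ y) (hyy : y < y') (hy1 : y' < 1) (k : ℕ)
    (hk : 1 ≤ (9 : ℝ) ^ (nn τ k - 1) * (y' - y)) :
    (1 / 9 : ℝ) ^ (nn τ (k + 1) - 1) ≤ XX τ y' - XX τ y := by
  have hs := summable_uu hτ y hy0 (hyy.trans hy1)
  have hs' := summable_uu hτ y' (hy0.trans hyy.le) hy1
  have hmono : ∀ i, uu τ y i ≤ uu τ y' i := by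
    intro i
    unfold uu
    have h1 : (⌊(9 : ℝ) ^ (nn τ i - 1) * y⌋ : ℝ) ≤ ⌊(9 : ℝ) ^ (nn τ i - 1) * y'⌋ := by
      have : ⌊(9 : ℝ) ^ (nn τ i - 1) * y⌋ ≤ ⌊(9 : ℝ) ^ (nn τ i - 1) * y'⌋ :=
        Int.floor_le_floor (mul_le_mul_of_nonneg_left hyy.le (by positivity))
      exact_mod_cast this
    have h2 := mul_le_mul_of_nonneg_right h1
      (show (0 : ℝ) ≤ (1 / 9 : ℝ) ^ (nn τ (i + 1) - 1) by positivity)
    linarith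
  have hk' : (1 / 9 : ℝ) ^ (nn τ (k + 1) - 1) ≤ uu τ y' k - uu τ y k := by
    have h1 : (⌊(9 : ℝ) ^ (nn τ k - 1) * y⌋ : ℝ) + 1 ≤ ⌊(9 : ℝ) ^ (nn τ k - 1) * y'⌋ := by
      have : ⌊(9 : ℝ) ^ (nn τ k - 1) * y⌋ + 1 ≤ ⌊(9 : ℝ) ^ (nn τ k - 1) * y'⌋ := by
        rw [Int.le_floor]
        push_cast
        have := Int.floor_le ((9 : ℝ) ^ (nn τ k - 1) * y)
        linarith
      exact_mod_cast this
    have h2 := mul_le_mul_of_nonneg_right h1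
      (show (0 : ℝ) ≤ (1 / 9 : ℝ) ^ (nn τ (k + 1) - 1) by positivity)
    unfold uu
    linarith
  refine hk'.trans ?_
  unfold XX
  rw [← hs'.tsum_sub hs]
  exact (hs'.sub hs).le_tsum k (fun j _ => by linarith [hmono j])

end Pool.Agent.J4.H24.WS
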