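import Mathlib
import Pool.Agent.J4.H24.WS.Cons

/-! Hausdorff dimension of the family. -/

set_option autoImplicit false

namespace Pool.Agent.J4.H24.WS

open Finset Filter
open scoped NNReal ENNReal

lemma XX_expand (τ : ℝ) (hτ : 3 ≤ τ) (y y' : ℝ) (hy0 : 0 ≤ y) (hyy : y < y') (hy1 : y' < 1) :
    (1 / 9 : ℝ) ^ ((τ + 1) ^ 2 + τ + 1) * (y' - y) ^ ((τ + 1) ^ 2) ≤ XX τ y' - XX τ y := by
  have hd : 0 < y' - y := by linarith
  have hd1 : y' - y < 1 := by linarith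
  have hex : ∃ k, 1 ≤ (9 : ℝ) ^ (nn τ k - 1) * (y' - y) := by
    obtain ⟨k, hk⟩ := pow_unbounded_of_one_lt (1 / (y' - y)) (show (1 : ℝ) < 9 by norm_num)
    refine ⟨k, ?_⟩
    rw [div_lt_iff₀ hd] at hk
    refine hk.le.trans ?_
    apply mul_le_mul_of_nonneg_right _ hd.le
    apply pow_le_pow_right₀ (by norm_num)
    have := nn_ge τ hτ k
    omega
  classical
  obtain ⟨k, hk, hmin⟩ : ∃ k, 1 ≤ (9 : ℝ) ^ (nn τ k - 1) * (y' - y) ∧
      ∀ j, j < k → ¬ 1 ≤ (9 : ℝ) ^ (nn τ j - 1) * (y' - y) :=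
    ⟨Nat.find hex, Nat.find_spec hex, fun j hj => Nat.find_min hex hj⟩
  rcases Nat.eq_zero_or_pos k with hk0 | hk0
  · exfalso
    rw [hk0] at hk
    have : nn τ 0 - 1 = 0 := rfl
    rw [this, pow_zero, one_mul] at hk
    linarith
  obtain ⟨j, rfl⟩ : ∃ j, k = j + 1 := ⟨k - 1, by omega⟩
  have h1 := hmin j (by omega)
  push Not at h1
  have h2 := XX_sep hτ y y' hy0 hyy hy1 (j + 1) hk
  refine le_trans ?_ h2
  have hn1 : ((nn τ (j + 1) : ℕ) : ℝ) ≤ (τ + 1) * nn τ j + 1 := by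
    rw [nn_succ]; push_cast
    have := mm_hi τ (by linarith) j
    linarith
  have hn2 : ((nn τ (j + 1 + 1) : ℕ) : ℝ) ≤ (τ + 1) * nn τ (j + 1) + 1 := by
    rw [nn_succ]; push_cast
    have := mm_hi τ (by linarith) (j + 1)
    linarith
  have hn3 : ((nn τ (j + 1 + 1) : ℕ) : ℝ) ≤ (τ + 1) ^ 2 * nn τ j + (τ + 1) + 1 := by
    have := mul_le_mul_of_nonneg_left hn1 (show 0 ≤ τ + 1 by linarith)
    nlinarith
  have hnj := nn_pos τ j
  have hnjj := nn_pos τ (j + 1 + 1)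
  set D : ℝ := (τ + 1) ^ 2 with hD
  have hD0 : 0 < D := by positivity
  -- the exponent
  have h5 : (((nn τ (j + 1 + 1) - 1 : ℕ)) : ℝ) ≤ (D + τ + 1) + D * ((nn τ j - 1 : ℕ) : ℝ) := by
    rw [Nat.cast_sub hnjj, Nat.cast_sub hnj]
    push_cast
    linarith
  have h6 : y' - y ≤ (1 / 9 : ℝ) ^ (nn τ j - 1) := by
    rw [one_div_pow, le_div_iff₀ (by positivity)]
    linarith
  calc (1 / 9 : ℝ) ^ (D + τ + 1) * (y' - y) ^ D ≤
      (1 / 9 : ℝ) ^ (D + τ + 1) * ((1 / 9 : ℝ) ^ (nn τ j - 1)) ^ D := by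
        apply mul_le_mul_of_nonneg_left _ (by positivity)
        exact Real.rpow_le_rpow hd.le h6 hD0.le
    _ = (1 / 9 : ℝ) ^ ((D + τ + 1) + D * ((nn τ j - 1 : ℕ) : ℝ)) := by
        rw [Real.rpow_add (by norm_num) (D + τ + 1), mul_comm D, Real.rpow_mul (by norm_num),
          Real.rpow_natCast]
    _ ≤ (1 / 9 : ℝ) ^ (((nn τ (j + 1 + 1) - 1 : ℕ)) : ℝ) :=
        Real.rpow_le_rpow_of_exponent_ge (by norm_num) (by norm_num) h5
    _ = _ := Real.rpow_natCast _ _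

lemma XX_inj (τ : ℝ) (hτ : 3 ≤ τ) : Set.InjOn (XX τ) (Set.Ico 0 1) := by
  intro y hy y' hy' he
  by_contra hne
  rcases lt_or_gt_of_ne hne with h | h
  · have := XX_expand τ hτ y y' hy.1 h hy'.2
    rw [he, sub_self] at this
    have h2 : 0 < (1 / 9 : ℝ) ^ ((τ + 1) ^ 2 + τ + 1) * (y' - y) ^ ((τ + 1) ^ 2) := by
      have : 0 < y' - y := by linarith
      positivity
    linarith
  · have := XX_expand τ hτ y' y hy'.1 h hy.2
    rw [he, sub_self] at this
    have h2 : 0 < (1 / 9 : ℝ) ^ ((τ + 1) ^ 2 + τ + 1) * (y - y') ^ ((τ + 1) ^ 2) := by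
      have : 0 < y - y' := by linarith
      positivity
    linarith

theorem dim_family (τ : ℝ) (hτ : 3 ≤ τ) :
    ENNReal.ofReal (1 / (τ + 1) ^ 2) ≤ dimH (XX τ '' Set.Ico 0 1) := by
  set D : ℝ := (τ + 1) ^ 2 with hD
  have hD0 : 0 < D := by positivity
  set g := Function.invFunOn (XX τ) (Set.Ico 0 1) with hg
  have hginv : ∀ y ∈ Set.Ico (0 : ℝ) 1, g (XX τ y) = y := fun y hy =>
    (XX_inj τ hτ).leftInvOn_invFunOn hy
  set E : ℝ := (1 / 9 : ℝ) ^ (D + τ + 1) with hE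
  have hE0 : 0 < E := by positivity
  -- the Holder estimate
  have key : ∀ y y' : ℝ, 0 ≤ y → y < y' → y' < 1 →
      y' - y ≤ (1 / E) ^ (1 / D) * (XX τ y' - XX τ y) ^ (1 / D) := by
    intro y y' h0 h1 h2
    have h3 := XX_expand τ hτ y y' h0 h1 h2
    rw [← hD, ← hE] at h3
    have hd : 0 < y' - y := by linarith
    have h4 : (y' - y) ^ D ≤ (1 / E) * (XX τ y' - XX τ y) := by
      rw [one_div, inv_mul_eq_div, le_div_iff₀ hE0]; linarith
    have hX : 0 ≤ XX τ y' - XX τ y := le_trans (by positivity) h3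
    calc y' - y = ((y' - y) ^ D) ^ (1 / D) := by
          rw [← Real.rpow_mul hd.le, mul_one_div_cancel hD0.ne', Real.rpow_one]
      _ ≤ ((1 / E) * (XX τ y' - XX τ y)) ^ (1 / D) :=
          Real.rpow_le_rpow (by positivity) h4 (by positivity)
      _ = _ := Real.mul_rpow (by positivity) hX
  have key2 : ∀ y ∈ Set.Ico (0 : ℝ) 1, ∀ y' ∈ Set.Ico (0 : ℝ) 1,
      dist y y' ≤ (1 / E) ^ (1 / D) * (dist (XX τ y) (XX τ y')) ^ (1 / D) := by
    intro y hy y' hy'
    rcases lt_trichotomy y y' with h | h | h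
    · have h1 := key y y' hy.1 h hy'.2
      have h3 := XX_expand τ hτ y y' hy.1 h hy'.2
      have hX : 0 ≤ XX τ y' - XX τ y := le_trans (by
        have : 0 < y' - y := by linarith
        positivity) h3
      rw [dist_comm y, dist_comm (XX τ y), Real.dist_eq, Real.dist_eq, abs_of_pos (by linarith),
        abs_of_nonneg hX]
      exact h1
    · rw [h, dist_self]; positivity
    · have h1 := key y' y hy'.1 h hy.2
      have h3 := XX_expand τ hτ y' y hy'.1 h hy.2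
      have hX : 0 ≤ XX τ y - XX τ y' := le_trans (by
        have : 0 < y - y' := by linarith
        positivity) h3
      rw [Real.dist_eq, Real.dist_eq, abs_of_pos (by linarith),
        abs_of_nonneg hX]
      exact h1
  set r : ℝ≥0 := Real.toNNReal (1 / D) with hr
  have hrr : (r : ℝ) = 1 / D := Real.coe_toNNReal _ (by positivity)
  set C : ℝ≥0 := Real.toNNReal ((1 / E) ^ (1 / D)) with hC
  have hH : HolderOnWith C r g (XX τ '' Set.Ico 0 1) := by
    rintro _ ⟨y, hy, rfl⟩ _ ⟨y', hy', rfl⟩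
    rw [hginv y hy, hginv y' hy']
    have h1 := key2 y hy y' hy'
    rw [edist_dist, edist_dist, hrr, ENNReal.ofReal_rpow_of_nonneg dist_nonneg (by positivity)]
    have h2 : (C : ℝ≥0∞) = ENNReal.ofReal ((1 / E) ^ (1 / D)) := rfl
    rw [h2, ← ENNReal.ofReal_mul (by positivity)]
    exact ENNReal.ofReal_le_ofReal h1
  have hr0 : 0 < r := by
    rw [← NNReal.coe_pos, hrr]
    positivity
  have himg : g '' (XX τ '' Set.Ico 0 1) = Set.Ico 0 1 := by
    rw [Set.image_image]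
    ext z
    constructor
    · rintro ⟨y, hy, rfl⟩
      have := hginv y hy
      simp only [this]; exact hy
    · intro hz
      exact ⟨z, hz, hginv z hz⟩
  have h1 := hH.dimH_image_le hr0
  rw [himg] at h1
  have h2 : dimH (Set.Ico (0 : ℝ) 1) = 1 := by
    have := Real.dimH_of_nonempty_interior (E := ℝ) (s := Set.Ico (0 : ℝ) 1) (by
      rw [interior_Ico]; exact ⟨1 / 2, by norm_num, by norm_num⟩)
    rw [this]; simp
  rw [h2] at h1
  have hr0' : (r : ℝ≥0∞) ≠ 0 := by exact_mod_cast hr0.ne'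
  have h3 : (r : ℝ≥0∞) ≤ dimH (XX τ '' Set.Ico 0 1) := by
    rw [ENNReal.le_div_iff_mul_le (Or.inl hr0') (Or.inl ENNReal.coe_ne_top), one_mul] at h1
    exact h1
  exact h3

end Pool.Agent.J4.H24.WS
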