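import Mathlib
import Pool.Agent.H373R2.NB.Vino

/-! Weyl's bound for quadratic exponential sums with zero linear term. -/

set_option autoImplicit false

namespace Pool.Agent.J4.H24.WS

open Finset
open Pool.Agent.Helper602.MK (ee)
open Pool.Agent.Helper602.MK.N_J5b (ee_add ee_zero ee_conj norm_ee KD KD_far ee_int ee_nat_mul
  ee_add_int)

/-- `∑_{n=1}^N e(x n^2)` -/
noncomputable def Sq (x : ℝ) (N : ℕ) : ℂ := ∑ n ∈ range N, ee (x * ((n : ℝ) + 1) ^ 2)

/-- sum over points of `[0, 1/2]` with spacing at least `1/(2q)` -/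
lemma half_sum (H : Finset ℕ) (q : ℕ) (hq : 1 ≤ q) (N : ℝ) (hN : 0 ≤ N) (F t : ℕ → ℝ)
    (ht0 : ∀ h ∈ H, 0 ≤ t h) (ht1 : ∀ h ∈ H, t h ≤ 1 / 2)
    (hsep : ∀ h ∈ H, ∀ h' ∈ H, h ≠ h' → 1 / (2 * (q : ℝ)) ≤ |t h - t h'|)
    (hF1 : ∀ h ∈ H, F h ≤ N) (hF2 : ∀ h ∈ H, F h * (2 * t h) ≤ 1) :
    ∑ h ∈ H, F h ≤ N + q * (1 + Real.log q) := by
  have hq0 : (0 : ℝ) < q := by exact_mod_cast hq
  set φ : ℕ → ℕ := fun h => ⌊2 * (q : ℝ) * t h⌋₊ with hφ
  set g : ℕ → ℝ := fun i => if i = 0 then N else q / i with hg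
  have hinj : Set.InjOn φ (H : Set ℕ) := by
    intro h hh h' hh' he
    by_contra hne
    have h1 := hsep h hh h' hh' hne
    have e1 : |2 * (q : ℝ) * t h - 2 * q * t h'| < 1 := by
      have a1 := Nat.floor_le (show 0 ≤ 2 * (q : ℝ) * t h from mul_nonneg (by positivity) (ht0 h hh))
      have a2 := Nat.lt_floor_add_one (2 * (q : ℝ) * t h)
      have a3 := Nat.floor_le (show 0 ≤ 2 * (q : ℝ) * t h' from mul_nonneg (by positivity) (ht0 h' hh'))
      have a4 := Nat.lt_floor_add_one (2 * (q : ℝ) * t h')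
      simp only [hφ] at he
      rw [he] at a1 a2
      rw [abs_lt]
      constructor <;> linarith
    rw [← mul_sub, abs_mul, abs_of_pos (show 0 < 2 * (q : ℝ) by positivity)] at e1
    rw [div_le_iff₀ (by positivity)] at h1
    linarith
  have hle : ∀ h ∈ H, F h ≤ g (φ h) := by
    intro h hh
    simp only [hg]
    split_ifs with h0
    · exact hF1 h hh
    · have hpos : (0 : ℝ) < (φ h : ℝ) := by exact_mod_cast Nat.pos_of_ne_zero h0
      have a1 : (φ h : ℝ) ≤ 2 * (q : ℝ) * t h :=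
        Nat.floor_le (mul_nonneg (by positivity) (ht0 h hh))
      have htp : 0 < t h := by
        by_contra hc
        have : t h = 0 := le_antisymm (not_lt.1 hc) (ht0 h hh)
        rw [this, mul_zero] at a1
        linarith
      rw [le_div_iff₀ hpos]
      have h2 := hF2 h hh
      rcases le_or_gt (F h) 0 with h3 | h3
      · nlinarith
      · calc F h * (φ h : ℝ) ≤ F h * (2 * q * t h) := mul_le_mul_of_nonneg_left a1 h3.le
          _ = q * (F h * (2 * t h)) := by ring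
          _ ≤ q * 1 := mul_le_mul_of_nonneg_left h2 hq0.le
          _ = q := mul_one _
  have hsub : H.image φ ⊆ range (q + 1) := by
    intro i hi
    rw [mem_image] at hi
    obtain ⟨h, hh, rfl⟩ := hi
    rw [mem_range]
    have a1 : (φ h : ℝ) ≤ 2 * (q : ℝ) * t h :=
      Nat.floor_le (mul_nonneg (by positivity) (ht0 h hh))
    have a2 := ht1 h hh
    have a3 : (φ h : ℝ) ≤ q := by nlinarith
    have : φ h ≤ q := by exact_mod_cast a3
    omega
  have hg0 : ∀ i, 0 ≤ g i := by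
    intro i; simp only [hg]; split_ifs
    · exact hN
    · positivity
  calc ∑ h ∈ H, F h ≤ ∑ h ∈ H, g (φ h) := sum_le_sum hle
    _ = ∑ i ∈ H.image φ, g i := (sum_image hinj).symm
    _ ≤ ∑ i ∈ range (q + 1), g i := sum_le_sum_of_subset_of_nonneg hsub (fun i _ _ => hg0 i)
    _ = N + ∑ i ∈ range q, q / ((i : ℝ) + 1) := by
        rw [sum_range_succ']
        simp only [hg]
        rw [if_pos trivial, add_comm]
        congr 1
        apply sum_congr rfl
        intro i _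
        rw [if_neg (by omega)]
        push_cast
        rfl
    _ = N + q * ((harmonic q : ℚ) : ℝ) := by
        congr 1
        rw [harmonic]
        push_cast
        rw [mul_sum]
        apply sum_congr rfl
        intro i _
        rw [div_eq_mul_inv]
    _ ≤ _ := by
        have := harmonic_le_one_add_log q
        have := mul_le_mul_of_nonneg_left this hq0.le
        linarith

/-- distance to the nearest integer of the multiples of `θ` in a short block -/
lemma sep_block (θ : ℝ) (a : ℤ) (q : ℕ) (hq : 1 ≤ q) (hco : IsCoprime a (q : ℤ))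
    (hθ : |θ - a / q| ≤ 1 / (q : ℝ) ^ 2) (d : ℕ) (hd : 0 < d) (hdq : 2 * d ≤ q) (n : ℤ) :
    1 / (2 * (q : ℝ)) ≤ |d * θ - n| := by
  have hq0 : (0 : ℝ) < q := by exact_mod_cast hq
  have hne : (d : ℤ) * a - n * q ≠ 0 := by
    intro h0
    have h1 : (q : ℤ) ∣ d * a := ⟨n, by linarith⟩
    have h2 : (q : ℤ) ∣ d := hco.symm.dvd_of_dvd_mul_right h1
    have h3 := Int.le_of_dvd (by exact_mod_cast hd) h2
    have : q ≤ d := by exact_mod_cast h3
    omega
  have h1 : (1 : ℝ) ≤ |(d : ℝ) * a - n * q| := by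
    have : (1 : ℤ) ≤ |(d : ℤ) * a - n * q| := Int.one_le_abs hne
    exact_mod_cast this
  have h2 : |(d : ℝ) * (a / q) - n| * q = |(d : ℝ) * a - n * q| := by
    rw [← abs_of_pos hq0, ← abs_mul]
    rw [abs_of_pos hq0]
    congr 1
    field_simp
  have h3 : 1 / (q : ℝ) ≤ |(d : ℝ) * (a / q) - n| := by
    rw [div_le_iff₀ hq0, h2]; exact h1
  have h4 : |(d : ℝ) * θ - d * (a / q)| ≤ 1 / (2 * q) := by
    rw [← mul_sub, abs_mul, Nat.abs_cast]
    calc (d : ℝ) * |θ - a / q| ≤ d * (1 / (q : ℝ) ^ 2) := mul_le_mul_of_nonneg_left hθ (by positivity)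
      _ ≤ (q / 2) * (1 / (q : ℝ) ^ 2) := by
          apply mul_le_mul_of_nonneg_right _ (by positivity)
          have : (2 : ℝ) * d ≤ q := by exact_mod_cast hdq
          linarith
      _ = _ := by field_simp
  have h5 : |(d : ℝ) * (a / q) - n| ≤ |(d : ℝ) * θ - n| + |(d : ℝ) * θ - d * (a / q)| := by
    have : (d : ℝ) * (a / q) - n = ((d : ℝ) * θ - n) - ((d : ℝ) * θ - d * (a / q)) := by ring
    rw [this]; exact abs_sub _ _
  have e : 1 / (q : ℝ) = 1 / (2 * q) + 1 / (2 * q) := by field_simp; norm_num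
  linarith

lemma block_sum (θ : ℝ) (a : ℤ) (q : ℕ) (hq : 1 ≤ q) (hco : IsCoprime a (q : ℤ))
    (hθ : |θ - a / q| ≤ 1 / (q : ℝ) ^ 2) (N : ℝ) (hN : 0 ≤ N) (F : ℕ → ℝ)
    (hF1 : ∀ h, F h ≤ N) (hF2 : ∀ h, F h * (2 * |h * θ - round (h * θ)|) ≤ 1) (s : ℕ) :
    ∑ r ∈ range (q / 2 + 1), F (s + r) ≤ 2 * (N + q * (1 + Real.log q)) := by
  set u : ℕ → ℝ := fun r => ((s + r : ℕ) : ℝ) * θ - round (((s + r : ℕ) : ℝ) * θ) with hu
  have hu1 : ∀ r, |u r| ≤ 1 / 2 := fun r => abs_sub_round _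
  have hsep : ∀ r ∈ range (q / 2 + 1), ∀ r' ∈ range (q / 2 + 1), r ≠ r' →
      1 / (2 * (q : ℝ)) ≤ |u r - u r'| := by
    have key : ∀ r r' : ℕ, r < r' → r' < q / 2 + 1 → 1 / (2 * (q : ℝ)) ≤ |u r' - u r| := by
      intro r r' h1 h2
      have h3 := sep_block θ a q hq hco hθ (r' - r) (by omega) (by omega)
        (round (((s + r' : ℕ) : ℝ) * θ) - round (((s + r : ℕ) : ℝ) * θ))
      have e : ((r' - r : ℕ) : ℝ) * θ -
          ((round (((s + r' : ℕ) : ℝ) * θ) - round (((s + r : ℕ) : ℝ) * θ) : ℤ) : ℝ) = u r' - u r := by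
        simp only [hu]
        rw [Nat.cast_sub h1.le]
        push_cast
        ring
      rw [e] at h3
      exact h3
    intro r hr r' hr' hne
    rw [mem_range] at hr hr'
    rcases lt_or_gt_of_ne hne with h | h
    · rw [abs_sub_comm]; exact key r r' h hr'
    · exact key r' r h hr
  rw [← sum_filter_add_sum_filter_not (range (q / 2 + 1)) (fun r => 0 ≤ u r)]
  have hF2' : ∀ r, F (s + r) * (2 * |u r|) ≤ 1 := fun r => hF2 (s + r)
  have A := half_sum ((range (q / 2 + 1)).filter (fun r => 0 ≤ u r)) q hq N hN (fun r => F (s + r)) u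
    (fun r hr => (mem_filter.1 hr).2)
    (fun r _ => (abs_le.1 (hu1 r)).2)
    (fun r hr r' hr' hne => hsep r (mem_filter.1 hr).1 r' (mem_filter.1 hr').1 hne)
    (fun r _ => hF1 _)
    (fun r hr => by
      have := hF2' r
      rwa [abs_of_nonneg (mem_filter.1 hr).2] at this)
  have B := half_sum ((range (q / 2 + 1)).filter (fun r => ¬ 0 ≤ u r)) q hq N hN (fun r => F (s + r))
    (fun r => - u r)
    (fun r hr => by
      have := (mem_filter.1 hr).2
      linarith)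
    (fun r _ => by
      have := (abs_le.1 (hu1 r)).1
      linarith)
    (fun r hr r' hr' hne => by
      have h1 := hsep r (mem_filter.1 hr).1 r' (mem_filter.1 hr').1 hne
      have e : -u r - -u r' = -(u r - u r') := by ring
      rw [e, abs_neg]; exact h1)
    (fun r _ => hF1 _)
    (fun r hr => by
      have := hF2' r
      have h3 : u r < 0 := not_le.1 (mem_filter.1 hr).2
      rwa [abs_of_neg h3] at this)
  linarith

lemma sum_blocks (F : ℕ → ℝ) (B : ℕ) (C : ℝ) (h : ∀ s, ∑ r ∈ range B, F (s + r) ≤ C) (J : ℕ) :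
    ∑ h ∈ range (J * B), F h ≤ J * C := by
  induction J with
  | zero => simp
  | succ J ih =>
    rw [Nat.add_mul, one_mul, sum_range_add]
    push_cast
    have := h (J * B)
    linarith

lemma all_sum (θ : ℝ) (a : ℤ) (q : ℕ) (hq : 1 ≤ q) (hco : IsCoprime a (q : ℤ))
    (hθ : |θ - a / q| ≤ 1 / (q : ℝ) ^ 2) (N : ℕ) (F : ℕ → ℝ) (hF0 : ∀ h, 0 ≤ F h)
    (hF1 : ∀ h, F h ≤ N) (hF2 : ∀ h, F h * (2 * |h * θ - round (h * θ)|) ≤ 1) :
    ∑ h ∈ range N, F h ≤ (2 * (N : ℝ) / q + 1) * (2 * (N + q * (1 + Real.log q))) := by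
  have hq0 : (0 : ℝ) < q := by exact_mod_cast hq
  set B := q / 2 + 1 with hB
  have hB0 : 0 < B := by omega
  have h1 := sum_blocks F B _ (block_sum θ a q hq hco hθ N (by positivity) F hF1 hF2) (N / B + 1)
  have h2 : N ≤ (N / B + 1) * B := by
    have := Nat.lt_div_mul_add (a := N) hB0
    rw [Nat.add_mul, one_mul]
    omega
  have h3 : ∑ h ∈ range N, F h ≤ ∑ h ∈ range ((N / B + 1) * B), F h :=
    sum_le_sum_of_subset_of_nonneg (range_subset_range.2 h2) (fun i _ _ => hF0 i)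
  have hlog : 0 ≤ Real.log q := Real.log_natCast_nonneg q
  refine h3.trans (h1.trans ?_)
  apply mul_le_mul_of_nonneg_right _ (by positivity)
  push_cast
  have h4 : ((N / B : ℕ) : ℝ) ≤ N / B := Nat.cast_div_le
  have h5 : (N : ℝ) / B ≤ 2 * N / q := by
    rw [div_le_div_iff₀ (by exact_mod_cast hB0) hq0]
    have h6 : (q : ℝ) ≤ 2 * B := by
      have : q ≤ 2 * B := by omega
      exact_mod_cast this
    nlinarith [show (0 : ℝ) ≤ N by positivity]
  linarith

/-- **Weyl's inequality** for `∑ e(x n^2)`. -/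
theorem weyl_sq (x : ℝ) (a : ℤ) (q : ℕ) (hq : 1 ≤ q) (hco : IsCoprime a (q : ℤ))
    (hθ : |2 * x - a / q| ≤ 1 / (q : ℝ) ^ 2) (N : ℕ) :
    ‖Sq x N‖ ^ 2 ≤ 4 * (2 * (N : ℝ) / q + 1) * (N + q * (1 + Real.log q)) := by
  set F : ℕ → ℝ := fun h => ‖∑ n ∈ range (N - h), ee (x * (((n + h : ℕ) : ℝ) + 1) ^ 2) *
    (starRingEnd ℂ) (ee (x * ((n : ℝ) + 1) ^ 2))‖ with hF
  have hvdc : ‖Sq x N‖ ^ 2 ≤ 2 * ∑ h ∈ range N, F h :=
    Pool.Agent.H373R2.NB.vdc (fun n => ee (x * ((n : ℝ) + 1) ^ 2)) (fun n => norm_ee _) N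
  have hFeq : ∀ h, F h = ‖∑ n ∈ range (N - h), ee ((n : ℝ) * (h * (2 * x)))‖ := by
    intro h
    simp only [hF]
    have : ∑ n ∈ range (N - h), ee (x * (((n + h : ℕ) : ℝ) + 1) ^ 2) *
        (starRingEnd ℂ) (ee (x * ((n : ℝ) + 1) ^ 2)) =
        ee (x * (h ^ 2 + 2 * h)) * ∑ n ∈ range (N - h), ee ((n : ℝ) * (h * (2 * x))) := by
      rw [mul_sum]
      apply sum_congr rfl
      intro n _
      rw [ee_conj, ← ee_add, ← ee_add]
      congr 1
      push_cast
      ring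
    rw [this, norm_mul, norm_ee, one_mul]
  have hF0 : ∀ h, 0 ≤ F h := fun h => norm_nonneg _
  have hF1 : ∀ h, F h ≤ N := by
    intro h
    rw [hFeq]
    calc ‖∑ n ∈ range (N - h), ee ((n : ℝ) * (h * (2 * x)))‖ ≤
        ∑ n ∈ range (N - h), ‖ee ((n : ℝ) * (h * (2 * x)))‖ := norm_sum_le _ _
      _ = ((N - h : ℕ) : ℝ) := by simp [norm_ee]
      _ ≤ N := by exact_mod_cast Nat.sub_le N h
  have hF2 : ∀ h : ℕ, F h * (2 * |h * (2 * x) - round (h * (2 * x))|) ≤ 1 := by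
    intro h
    set δ := |h * (2 * x) - round (h * (2 * x))| with hδ
    rcases (abs_nonneg (h * (2 * x) - round (h * (2 * x)))).eq_or_lt with h0 | h0
    · rw [← hδ] at h0
      rw [← h0]; norm_num
    · rw [← hδ] at h0
      have h2 := KD_far (N - h) (h * (2 * x)) δ h0 (fun n => round_le _ n)
      unfold KD at h2
      rw [← hFeq] at h2
      have h3 : (F h * (2 * δ)) ^ 2 ≤ 1 := by
        rw [mul_pow]
        rw [le_div_iff₀ (by positivity)] at h2
        linarith [mul_pow (2 : ℝ) δ 2]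
      nlinarith [mul_nonneg (hF0 h) (by positivity : 0 ≤ 2 * δ)]
  have h1 := all_sum (2 * x) a q hq hco hθ N F hF0 hF1 hF2
  linarith

end Pool.Agent.J4.H24.WS
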