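import Mathlib
import Pool.Agent.J4.H24.WS.Upper

/-! Quadratic Gauss sums modulo `9^n` and the lower bound. -/

set_option autoImplicit false

namespace Pool.Agent.J4.H24.WS

open Finset
open Pool.Agent.Helper602.MK (ee)
open Pool.Agent.Helper602.MK.N_J5b (ee_add ee_zero ee_conj norm_ee KD KD_far ee_int ee_nat_mul
  ee_add_int ee_eq_one_iff)

lemma sum_three (g : ℕ → ℂ) (k : ℕ) :
    ∑ u ∈ range (3 * k), g u = ∑ v ∈ range k, (g (3 * v) + g (3 * v + 1) + g (3 * v + 2)) := by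
  induction k with
  | zero => simp
  | succ k ih =>
    rw [show 3 * (k + 1) = 3 * k + 1 + 1 + 1 by ring, sum_range_succ, sum_range_succ,
      sum_range_succ, ih, sum_range_succ]
    ring

lemma cube_sum (a : ℤ) (ha : ¬ (3 : ℤ) ∣ a) (u : ℕ) :
    1 + ee (2 * a * u / 3) + ee (4 * a * u / 3) = if 3 ∣ u then 3 else 0 := by
  have h2 : ee (4 * a * u / 3) = ee (2 * a * u / 3) ^ 2 := by
    rw [← ee_nat_mul]; congr 1; push_cast; ring
  split_ifs with hu
  · obtain ⟨v, rfl⟩ := hu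
    have : ee (2 * a * ((3 * v : ℕ) : ℝ) / 3) = 1 := by
      have e : (2 * a * ((3 * v : ℕ) : ℝ) / 3) = ((2 * a * v : ℤ) : ℝ) := by push_cast; ring
      rw [e, ee_int]
    rw [h2, this]; norm_num
  · set w := ee (2 * a * u / 3) with hw
    have hw3 : w ^ 3 = 1 := by
      rw [hw, ← ee_nat_mul]
      have e : ((3 : ℕ) : ℝ) * (2 * a * u / 3) = ((2 * a * u : ℤ) : ℝ) := by push_cast; ring
      rw [e, ee_int]
    have hw1 : w ≠ 1 := by
      intro h
      rw [hw, ee_eq_one_iff] at h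
      obtain ⟨n, hn⟩ := h
      have h3 : (2 * a * u : ℝ) = 3 * n := by linarith
      have h4 : 2 * a * (u : ℤ) = 3 * n := by exact_mod_cast h3
      have h5 : (3 : ℤ) ∣ 2 * a * u := ⟨n, h4⟩
      have hp : Prime (3 : ℤ) := Int.prime_three
      rcases hp.dvd_or_dvd h5 with h6 | h6
      · rcases hp.dvd_or_dvd h6 with h7 | h7
        · norm_num at h7
        · exact ha h7
      · exact hu (by exact_mod_cast h6)
    rw [h2]
    have h3 : (w - 1) * (1 + w + w ^ 2) = 0 := by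
      have : (w - 1) * (1 + w + w ^ 2) = w ^ 3 - 1 := by ring
      rw [this, hw3, sub_self]
    rcases mul_eq_zero.1 h3 with h4 | h4
    · exact absurd (sub_eq_zero.1 h4) hw1
    · exact h4

lemma gauss9 (a : ℤ) (ha : ¬ (3 : ℤ) ∣ a) (n : ℕ) :
    ∑ r ∈ range (9 ^ n), ee (a * (r : ℝ) ^ 2 / 9 ^ n) = 3 ^ n := by
  induction n with
  | zero => simp [ee_zero]
  | succ n ih =>
    set m : ℕ := 3 * 9 ^ n with hm
    set f : ℕ → ℂ := fun r => ee (a * (r : ℝ) ^ 2 / 9 ^ (n + 1)) with hf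
    have h9 : (9 : ℝ) ^ n ≠ 0 := by positivity
    have e0 : 9 ^ (n + 1) = m + m + m := by rw [hm]; ring
    have f1 : ∀ u, f (m + u) = f u * ee (2 * a * u / 3) := by
      intro u
      simp only [hf]
      have e : (a : ℝ) * ((m + u : ℕ) : ℝ) ^ 2 / 9 ^ (n + 1) =
          (a * (u : ℝ) ^ 2 / 9 ^ (n + 1) + 2 * a * u / 3) + ((a * 9 ^ n : ℤ) : ℝ) := by
        rw [hm]; push_cast; rw [pow_succ]; field_simp; ring
      rw [e, ee_add_int, ee_add]
    have f2 : ∀ u, f (m + m + u) = f u * ee (4 * a * u / 3) := by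
      intro u
      simp only [hf]
      have e : (a : ℝ) * ((m + m + u : ℕ) : ℝ) ^ 2 / 9 ^ (n + 1) =
          (a * (u : ℝ) ^ 2 / 9 ^ (n + 1) + 4 * a * u / 3) + ((4 * a * 9 ^ n : ℤ) : ℝ) := by
        rw [hm]; push_cast; rw [pow_succ]; field_simp; ring
      rw [e, ee_add_int, ee_add]
    rw [e0, sum_range_add, sum_range_add, ← sum_add_distrib, ← sum_add_distrib]
    have h1 : ∀ u ∈ range m, ee (a * (u : ℝ) ^ 2 / 9 ^ (n + 1)) + ee (a * ((m + u : ℕ) : ℝ) ^ 2 / 9 ^ (n + 1)) +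
        ee (a * ((m + m + u : ℕ) : ℝ) ^ 2 / 9 ^ (n + 1)) = f u * (if 3 ∣ u then 3 else 0) := by
      intro u _
      have a1 := f1 u
      have a2 := f2 u
      simp only [hf] at a1 a2
      rw [a1, a2, ← cube_sum a ha u]
      simp only [hf]
      ring
    rw [sum_congr rfl h1, hm, sum_three]
    have h2 : ∀ v ∈ range (9 ^ n), (f (3 * v) * (if 3 ∣ 3 * v then (3 : ℂ) else 0) +
        f (3 * v + 1) * (if 3 ∣ 3 * v + 1 then (3 : ℂ) else 0) +
        f (3 * v + 2) * (if 3 ∣ 3 * v + 2 then (3 : ℂ) else 0)) =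
        3 * ee (a * (v : ℝ) ^ 2 / 9 ^ n) := by
      intro v _
      rw [if_pos (by omega), if_neg (by omega), if_neg (by omega)]
      simp only [hf]
      have e : (a : ℝ) * ((3 * v : ℕ) : ℝ) ^ 2 / 9 ^ (n + 1) = a * (v : ℝ) ^ 2 / 9 ^ n := by
        push_cast; rw [pow_succ]; field_simp; ring
      rw [e]; ring
    rw [sum_congr rfl h2, ← mul_sum, ih, pow_succ]
    ring

lemma gauss9' (a : ℤ) (ha : ¬ (3 : ℤ) ∣ a) (n : ℕ) :
    ∑ r ∈ range (9 ^ n), ee (a * ((r : ℝ) + 1) ^ 2 / 9 ^ n) = 3 ^ n := by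
  rw [← gauss9 a ha n]
  have h1 := sum_range_succ (fun r : ℕ => ee (a * (r : ℝ) ^ 2 / 9 ^ n)) (9 ^ n)
  have h2 := sum_range_succ' (fun r : ℕ => ee (a * (r : ℝ) ^ 2 / 9 ^ n)) (9 ^ n)
  have h3 : ee (a * ((9 ^ n : ℕ) : ℝ) ^ 2 / 9 ^ n) = 1 := by
    have h9 : (9 : ℝ) ^ n ≠ 0 := by positivity
    have e : (a : ℝ) * ((9 ^ n : ℕ) : ℝ) ^ 2 / 9 ^ n = ((a * 9 ^ n : ℤ) : ℝ) := by
      push_cast; field_simp
    rw [e, ee_int]
  have h4 : ee (a * ((0 : ℕ) : ℝ) ^ 2 / 9 ^ n) = 1 := by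
    have e : (a : ℝ) * ((0 : ℕ) : ℝ) ^ 2 / 9 ^ n = 0 := by simp
    rw [e, ee_zero]
  rw [h1] at h2
  simp only [h3, h4] at h2
  have h5 := add_right_cancel h2
  rw [h5]
  apply sum_congr rfl
  intro r _
  push_cast
  rfl

lemma norm_ee_sub (s t : ℝ) : ‖ee s - ee t‖ ≤ 7 * |s - t| := by
  have e : ee s - ee t = ee t * (ee (s - t) - 1) := by
    rw [mul_sub, ← ee_add, mul_one]; congr 2; ring
  rw [e, norm_mul, norm_ee, one_mul]
  have h := Real.norm_exp_I_mul_ofReal_sub_one_le (x := 2 * Real.pi * (s - t))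
  have e2 : ee (s - t) = Complex.exp (Complex.I * ((2 * Real.pi * (s - t) : ℝ) : ℂ)) := by
    unfold ee
    congr 1
    push_cast
    ring
  rw [e2]
  refine h.trans ?_
  rw [Real.norm_eq_abs, abs_mul, abs_of_pos (by positivity)]
  apply mul_le_mul_of_nonneg_right _ (abs_nonneg _)
  have := Real.pi_lt_d2
  linarith

end Pool.Agent.J4.H24.WS
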