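import Mathlib
import Pool.Agent.J4.H24.WS.Gauss

/-! Lower bound for the quadratic sums near a fraction with denominator `9^n`. -/

set_option autoImplicit false

namespace Pool.Agent.J4.H24.WS

open Finset
open Pool.Agent.Helper602.MK (ee)
open Pool.Agent.Helper602.MK.N_J5b (ee_add ee_zero ee_conj norm_ee KD KD_far ee_int ee_nat_mul
  ee_add_int ee_eq_one_iff ee_eq)

lemma sum_blocksC (F : ℕ → ℂ) (B J : ℕ) :
    ∑ h ∈ range (J * B), F h = ∑ j ∈ range J, ∑ r ∈ range B, F (j * B + r) := by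
  induction J with
  | zero => simp
  | succ J ih => rw [Nat.add_mul, one_mul, sum_range_add, ih, sum_range_succ]

lemma re_ee (t : ℝ) (h0 : 0 ≤ t) (h1 : 6 * t ≤ 1) : 1 / 2 ≤ (ee t).re := by
  rw [ee_eq, Complex.exp_ofReal_mul_I_re, ← Real.cos_pi_div_three]
  have hpi := Real.pi_pos
  apply Real.cos_le_cos_of_nonneg_of_le_pi
  · positivity
  · linarith
  · nlinarith

theorem lower_main (x β : ℝ) (a : ℤ) (ha : ¬ (3 : ℤ) ∣ a) (n M : ℕ) (hx : x = a / 9 ^ n + β)
    (hβ0 : 0 ≤ β) (hβ : 6 * (β * ((M : ℝ) * 9 ^ n) ^ 2) ≤ 1) (hM : 12 * 3 ^ n ≤ M) :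
    (3 : ℝ) ^ n * M / 4 ≤ ‖Sq x (M * 9 ^ n)‖ := by
  set q : ℝ := 9 ^ n with hq
  have hq0 : 0 < q := by positivity
  set N : ℝ := M * q with hN
  have hN0 : 0 ≤ N := by positivity
  -- the main term
  set T : ℂ := ∑ j ∈ range M, ee (β * ((j : ℝ) * q) ^ 2) with hT
  have hTre : (M : ℝ) / 2 ≤ T.re := by
    rw [hT, Complex.re_sum]
    calc (M : ℝ) / 2 = ∑ j ∈ range M, (1 / 2 : ℝ) := by simp; ring
      _ ≤ ∑ j ∈ range M, (ee (β * ((j : ℝ) * q) ^ 2)).re := by
          apply sum_le_sum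
          intro j hj
          rw [mem_range] at hj
          have hjM : (j : ℝ) ≤ M := by exact_mod_cast hj.le
          apply re_ee
          · positivity
          · refine le_trans ?_ hβ
            have h1 : ((j : ℝ) * q) ^ 2 ≤ N ^ 2 := by
              apply pow_le_pow_left₀ (by positivity)
              exact mul_le_mul_of_nonneg_right hjM hq0.le
            have := mul_le_mul_of_nonneg_left h1 hβ0
            linarith
  have hTn : (M : ℝ) / 2 ≤ ‖T‖ := hTre.trans (Complex.re_le_norm T)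
  have hdiff : ‖Sq x (M * 9 ^ n) - 3 ^ n * T‖ ≤ 3 * q := by
    have e1 : Sq x (M * 9 ^ n) = ∑ j ∈ range M, ∑ r ∈ range (9 ^ n),
        ee (x * (((j * 9 ^ n + r : ℕ) : ℝ) + 1) ^ 2) := by
      unfold Sq
      rw [sum_blocksC]
    have e2 : (3 : ℂ) ^ n * T = ∑ j ∈ range M, ∑ r ∈ range (9 ^ n),
        ee (a * ((r : ℝ) + 1) ^ 2 / 9 ^ n) * ee (β * ((j : ℝ) * q) ^ 2) := by
      rw [hT, mul_sum]
      apply sum_congr rfl
      intro j _
      rw [← sum_mul, gauss9' a ha n]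
    rw [e1, e2, ← sum_sub_distrib]
    have hb : ∀ j ∈ range M, ‖∑ r ∈ range (9 ^ n), ee (x * (((j * 9 ^ n + r : ℕ) : ℝ) + 1) ^ 2) -
        ∑ r ∈ range (9 ^ n), ee (a * ((r : ℝ) + 1) ^ 2 / 9 ^ n) * ee (β * ((j : ℝ) * q) ^ 2)‖ ≤
        q * (14 * β * q * N) := by
      intro j hj
      rw [mem_range] at hj
      rw [← sum_sub_distrib]
      have hj1 : ((j : ℝ) + 1) ≤ M := by exact_mod_cast hj
      calc _ ≤ ∑ r ∈ range (9 ^ n), ‖ee (x * (((j * 9 ^ n + r : ℕ) : ℝ) + 1) ^ 2) -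
            ee (a * ((r : ℝ) + 1) ^ 2 / 9 ^ n) * ee (β * ((j : ℝ) * q) ^ 2)‖ := norm_sum_le _ _
        _ ≤ ∑ r ∈ range (9 ^ n), (14 * β * q * N) := by
            apply sum_le_sum
            intro r hr
            rw [mem_range] at hr
            have hr1 : ((r : ℝ) + 1) ≤ q := by
              rw [hq]
              have : r + 1 ≤ 9 ^ n := hr
              exact_mod_cast this
            set m : ℝ := (j : ℝ) * q + (r + 1) with hm
            have em : (((j * 9 ^ n + r : ℕ) : ℝ) + 1) = m := by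
              rw [hm, hq]; push_cast; ring
            rw [em]
            have e3 : ee (x * m ^ 2) = ee (a * ((r : ℝ) + 1) ^ 2 / 9 ^ n) * ee (β * m ^ 2) := by
              rw [← ee_add]
              have : x * m ^ 2 = (a * ((r : ℝ) + 1) ^ 2 / 9 ^ n + β * m ^ 2) +
                  ((a * (j ^ 2 * 9 ^ n + 2 * j * (r + 1)) : ℤ) : ℝ) := by
                rw [hx, hm, hq]
                have h9 : (9 : ℝ) ^ n ≠ 0 := by positivity
                push_cast
                field_simp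
                ring
              rw [this, ee_add_int]
            rw [e3, ← mul_sub, norm_mul, norm_ee, one_mul]
            refine (norm_ee_sub _ _).trans ?_
            rw [← mul_sub, abs_mul, abs_of_nonneg hβ0]
            have h1 : m ^ 2 - ((j : ℝ) * q) ^ 2 = (r + 1) * (2 * (j * q) + (r + 1)) := by
              rw [hm]; ring
            have h2 : 0 ≤ m ^ 2 - ((j : ℝ) * q) ^ 2 := by rw [h1]; positivity
            rw [abs_of_nonneg h2, h1]
            have h3 : (2 * ((j : ℝ) * q) + (r + 1)) ≤ 2 * N := by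
              have : ((j : ℝ) + 1) * q ≤ M * q := mul_le_mul_of_nonneg_right hj1 hq0.le
              nlinarith
            have h4 : ((r : ℝ) + 1) * (2 * (j * q) + (r + 1)) ≤ q * (2 * N) :=
              mul_le_mul hr1 h3 (by positivity) hq0.le
            have h5 := mul_le_mul_of_nonneg_left h4 hβ0
            nlinarith
        _ = _ := by
            rw [sum_const, card_range, nsmul_eq_mul, hq]; push_cast; ring
    calc _ ≤ ∑ j ∈ range M, ‖∑ r ∈ range (9 ^ n), ee (x * (((j * 9 ^ n + r : ℕ) : ℝ) + 1) ^ 2) -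
        ∑ r ∈ range (9 ^ n), ee (a * ((r : ℝ) + 1) ^ 2 / 9 ^ n) * ee (β * ((j : ℝ) * q) ^ 2)‖ :=
          norm_sum_le _ _
      _ ≤ ∑ j ∈ range M, q * (14 * β * q * N) := sum_le_sum hb
      _ = 14 * q * (β * N ^ 2) := by
          rw [sum_const, card_range, nsmul_eq_mul, hN]; ring
      _ ≤ 3 * q := by nlinarith
  have h3 : ‖(3 : ℂ) ^ n * T‖ = 3 ^ n * ‖T‖ := by
    rw [norm_mul, norm_pow]; norm_num
  have h4 : ‖(3 : ℂ) ^ n * T‖ ≤ ‖Sq x (M * 9 ^ n)‖ + ‖Sq x (M * 9 ^ n) - 3 ^ n * T‖ := by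
    have : (3 : ℂ) ^ n * T = Sq x (M * 9 ^ n) - (Sq x (M * 9 ^ n) - 3 ^ n * T) := by ring
    nth_rewrite 1 [this]
    exact norm_sub_le _ _
  have h5 : (3 : ℝ) ^ n * (M / 2) ≤ 3 ^ n * ‖T‖ := mul_le_mul_of_nonneg_left hTn (by positivity)
  have h6 : 3 * q ≤ (3 : ℝ) ^ n * M / 4 := by
    have e : q = (3 : ℝ) ^ n * 3 ^ n := by rw [hq, ← mul_pow]; norm_num
    have hM' : (12 * 3 ^ n : ℝ) ≤ M := by exact_mod_cast hM
    rw [e]
    have := mul_le_mul_of_nonneg_left hM' (show (0 : ℝ) ≤ 3 ^ n by positivity)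
    linarith
  linarith

end Pool.Agent.J4.H24.WS
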