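import Mathlib
import Pool.Agent.J4.H24.WS.Upper

/-! Upper bound for the quadratic sums from an irrationality measure. -/

set_option autoImplicit false

namespace Pool.Agent.J4.H24.WS

open Finset

theorem upper_of_measure (x τ c : ℝ) (hτ : 2 ≤ τ) (hc : 0 < c)
    (h : ∀ (a : ℤ) (q : ℕ), 1 ≤ q → c / (q : ℝ) ^ τ ≤ |2 * x - a / q|) :
    ∃ C : ℝ, 0 < C ∧ ∀ N : ℕ, 1 ≤ N →
      ‖Sq x N‖ ^ 2 ≤ C * (N : ℝ) ^ (2 - 2 / τ) * (1 + Real.log N) := by
  have hτ0 : 0 < τ := by linarith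
  set c₁ : ℝ := c ^ (1 / (τ - 1)) with hc₁
  have hc₁0 : 0 < c₁ := Real.rpow_pos_of_pos hc _
  refine ⟨4 * (2 / c₁ + 9), by positivity, fun N hN => ?_⟩
  have hN0 : (0 : ℝ) < N := by exact_mod_cast hN
  have hN1 : (1 : ℝ) ≤ N := by exact_mod_cast hN
  have hexp : 1 ≤ 2 - 2 / τ := by
    have : 2 / τ ≤ 1 := by rw [div_le_one hτ0]; exact hτ
    linarith
  set M : ℝ := (N : ℝ) ^ (2 - 2 / τ) with hM
  have hNM : (N : ℝ) ≤ M := by
    calc (N : ℝ) = (N : ℝ) ^ (1 : ℝ) := (Real.rpow_one _).symm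
      _ ≤ M := Real.rpow_le_rpow_of_exponent_le hN1 hexp
  have hM1 : 1 ≤ M := hN1.trans hNM
  have hM0 : 0 < M := by linarith
  obtain ⟨Q, hQ⟩ : ∃ Q : ℕ, Q = ⌈M⌉₊ := ⟨_, rfl⟩
  have hQM : M ≤ Q := by rw [hQ]; exact Nat.le_ceil _
  have hQM2 : (Q : ℝ) < M + 1 := by rw [hQ]; exact Nat.ceil_lt_add_one hM0.le
  have hQpos : 0 < Q := by
    have : (0 : ℝ) < Q := by linarith
    exact_mod_cast this
  obtain ⟨r, hr1, hr2⟩ := Real.exists_rat_abs_sub_le_and_den_le (2 * x) hQpos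
  obtain ⟨q, hq⟩ : ∃ q : ℕ, q = r.den := ⟨_, rfl⟩
  have hq1 : 1 ≤ q := by rw [hq]; exact r.den_pos
  have hq0 : (0 : ℝ) < q := by exact_mod_cast hq1
  have hrr : (r : ℝ) = (r.num : ℝ) / q := by
    rw [hq]; exact Rat.cast_def r
  rw [hrr, ← hq] at hr1
  rw [← hq] at hr2
  have hqQ : (q : ℝ) ≤ Q := by exact_mod_cast hr2
  have hco : IsCoprime r.num (q : ℤ) := by
    rw [hq]; exact Rat.isCoprime_num_den r
  have hθ : |2 * x - (r.num : ℝ) / q| ≤ 1 / (q : ℝ) ^ 2 := by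
    refine hr1.trans ?_
    apply one_div_le_one_div_of_le (by positivity)
    nlinarith
  have hW := weyl_sq x r.num q hq1 hco hθ N
  -- lower bound for q
  have hqτ : c * M ≤ (q : ℝ) ^ (τ - 1) := by
    have h1 := (h r.num q hq1).trans hr1
    rw [div_le_div_iff₀ (Real.rpow_pos_of_pos hq0 _) (by positivity)] at h1
    have h2 : (q : ℝ) ^ τ = (q : ℝ) ^ (τ - 1) * q := by
      nth_rewrite 3 [← Real.rpow_one (q : ℝ)]
      rw [← Real.rpow_add hq0]
      congr 1; ring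
    rw [h2, one_mul] at h1
    have h3 : c * ((Q : ℝ) + 1) ≤ (q : ℝ) ^ (τ - 1) := by
      have : (c * ((Q : ℝ) + 1)) * q ≤ (q : ℝ) ^ (τ - 1) * q := by linarith
      exact le_of_mul_le_mul_right this hq0
    nlinarith
  have hqlow : c₁ * (N : ℝ) ^ (2 / τ) ≤ q := by
    have h1 : (c * M) ^ (1 / (τ - 1)) ≤ ((q : ℝ) ^ (τ - 1)) ^ (1 / (τ - 1)) :=
      Real.rpow_le_rpow (by positivity) hqτ (by
        apply div_nonneg zero_le_one; linarith)
    rw [← Real.rpow_mul hq0.le, mul_one_div_cancel (by linarith : τ - 1 ≠ 0), Real.rpow_one,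
      Real.mul_rpow hc.le hM0.le, hM, ← Real.rpow_mul hN0.le] at h1
    have e : (2 - 2 / τ) * (1 / (τ - 1)) = 2 / τ := by
      have : τ - 1 ≠ 0 := by linarith
      field_simp
    rw [e] at h1
    exact h1
  have hlogN : 0 ≤ Real.log N := Real.log_nonneg hN1
  have hlogq : 1 + Real.log q ≤ 2 * (1 + Real.log N) := by
    have h1 : (q : ℝ) ≤ 2 * M := by linarith
    have h2 : Real.log q ≤ Real.log (2 * M) := Real.log_le_log hq0 h1
    have h3 : Real.log (2 * M) = Real.log 2 + (2 - 2 / τ) * Real.log N := by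
      rw [Real.log_mul (by norm_num) hM0.ne', hM, Real.log_rpow hN0]
    have h4 : Real.log 2 ≤ 1 := by
      have := Real.log_two_lt_d9
      linarith
    have h5 : (2 - 2 / τ) * Real.log N ≤ 2 * Real.log N := by
      apply mul_le_mul_of_nonneg_right _ hlogN
      have : 0 < 2 / τ := by positivity
      linarith
    linarith
  have hlogq0 : 0 ≤ Real.log q := Real.log_natCast_nonneg q
  have h1 : (N : ℝ) ^ 2 / q ≤ (1 / c₁) * M := by
    rw [div_le_iff₀ hq0]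
    have e : (N : ℝ) ^ 2 = M * (N : ℝ) ^ (2 / τ) := by
      rw [hM, ← Real.rpow_add hN0]
      have : (2 - 2 / τ + 2 / τ) = ((2 : ℕ) : ℝ) := by push_cast; ring
      rw [this, Real.rpow_natCast]
    rw [e]
    calc M * (N : ℝ) ^ (2 / τ) = (1 / c₁) * M * (c₁ * (N : ℝ) ^ (2 / τ)) := by
          field_simp
      _ ≤ (1 / c₁) * M * q := mul_le_mul_of_nonneg_left hqlow (by positivity)
  set L : ℝ := 1 + Real.log N with hL
  have hL1 : 1 ≤ L := by linarith
  have hq2M : (q : ℝ) ≤ 2 * M := by linarith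
  calc ‖Sq x N‖ ^ 2 ≤ 4 * (2 * (N : ℝ) / q + 1) * (N + q * (1 + Real.log q)) := hW
    _ = 4 * (2 * ((N : ℝ) ^ 2 / q) + 2 * N * (1 + Real.log q) + N + q * (1 + Real.log q)) := by
        field_simp
        ring
    _ ≤ 4 * (2 * ((1 / c₁) * M) + 2 * M * (2 * L) + M + (2 * M) * (2 * L)) := by
        have a1 : 2 * (N : ℝ) * (1 + Real.log q) ≤ 2 * M * (2 * L) :=
          mul_le_mul (by linarith) hlogq (by positivity) (by positivity)
        have a2 : (q : ℝ) * (1 + Real.log q) ≤ (2 * M) * (2 * L) :=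
          mul_le_mul hq2M hlogq (by positivity) (by positivity)
        linarith
    _ ≤ 4 * (2 / c₁ + 9) * M * L := by
        have a1 : M ≤ M * L := le_mul_of_one_le_right hM0.le hL1
        have a2 : (1 / c₁) * M ≤ (1 / c₁) * (M * L) := mul_le_mul_of_nonneg_left a1 (by positivity)
        have e : 4 * (2 / c₁ + 9) * M * L = 4 * (2 * ((1 / c₁) * (M * L)) + 9 * (M * L)) := by ring
        rw [e]
        nlinarith

end Pool.Agent.J4.H24.WS
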