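import Mathlib
import Pool.Agent.J4.H24.WS.Cons
import Pool.Agent.J4.H24.WS.Upper2
import Pool.Agent.J4.H24.WS.Lower

/-! Growth exponents and Hausdorff dimension. -/

set_option autoImplicit false

namespace Pool.Agent.J4.H24.WS

open Finset Filter

lemma sigma_eq (z : ℕ → ℂ) (α : ℝ)
    (hU : ∀ s : ℝ, α < s → ∀ᶠ N : ℕ in atTop, ‖z N‖ ≤ (N : ℝ) ^ s)
    (hL : ∀ s : ℝ, s < α → ∃ᶠ N : ℕ in atTop, (N : ℝ) ^ s ≤ ‖z N‖) :
    limsup (fun N : ℕ => ENNReal.log ‖z N‖ₑ / ((Real.log N : ℝ) : EReal)) atTop = (α : EReal) := by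
  have hlogpos : ∀ᶠ N : ℕ in atTop, 2 ≤ N := eventually_ge_atTop 2
  have hlp : ∀ N : ℕ, 2 ≤ N → (0 : EReal) < ((Real.log N : ℝ) : EReal) := by
    intro N hN
    have : 0 < Real.log N := Real.log_pos (by exact_mod_cast hN)
    exact_mod_cast this
  apply le_antisymm
  · rw [← EReal.le_of_forall_lt_iff_le]
    intro s hs
    have hs' : α < s := by exact_mod_cast hs
    apply limsup_le_of_le
    · isBoundedDefault
    filter_upwards [hU s hs', hlogpos] with N hN h2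
    rw [EReal.div_le_iff_le_mul (hlp N h2) (EReal.coe_ne_top _)]
    have hN0 : (0 : ℝ) < N := by
      have : 0 < N := by omega
      exact_mod_cast this
    have h3 : ‖z N‖ₑ ≤ ENNReal.ofReal ((N : ℝ) ^ s) := by
      rw [← ofReal_norm]
      exact ENNReal.ofReal_le_ofReal hN
    have h4 := ENNReal.log_le_log h3
    rw [ENNReal.log_ofReal_of_pos (Real.rpow_pos_of_pos hN0 s), Real.log_rpow hN0] at h4
    refine h4.trans (le_of_eq ?_)
    rw [mul_comm s]
    exact EReal.coe_mul _ _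
  · rw [← EReal.ge_of_forall_gt_iff_ge]
    intro s hs
    have hs' : s < α := by exact_mod_cast hs
    apply le_limsup_of_frequently_le'
    apply ((hL s hs').and_eventually hlogpos).mono
    rintro N ⟨hN, h2⟩
    rw [EReal.le_div_iff_mul_le (hlp N h2) (EReal.coe_ne_top _)]
    have hN0 : (0 : ℝ) < N := by
      have : 0 < N := by omega
      exact_mod_cast this
    have h3 : ENNReal.ofReal ((N : ℝ) ^ s) ≤ ‖z N‖ₑ := by
      rw [← ofReal_norm]
      exact ENNReal.ofReal_le_ofReal hN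
    have h4 := ENNReal.log_le_log h3
    rw [ENNReal.log_ofReal_of_pos (Real.rpow_pos_of_pos hN0 s), Real.log_rpow hN0] at h4
    refine le_trans (le_of_eq ?_) h4
    exact (EReal.coe_mul _ _).symm

/-- values of `Sq` on the family -/
theorem family_upper (τ : ℝ) (hτ : 3 ≤ τ) (y : ℝ) (hy0 : 0 ≤ y) (hy1 : y < 1) (s : ℝ)
    (hs : 1 - 1 / τ < s) : ∀ᶠ N : ℕ in atTop, ‖Sq (XX τ y) N‖ ≤ (N : ℝ) ^ s := by
  have hA := XX_apx hτ y hy0 hy1
  obtain ⟨C, hC, hN⟩ := upper_of_measure (XX τ y) τ (1 / (2 * (12 : ℝ) ^ (τ - 1))) (by linarith)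
    (by positivity) (fun a q hq => hA.measure hτ a q hq)
  set δ : ℝ := s - (1 - 1 / τ) with hδ
  have hδ0 : 0 < δ := by linarith
  have h1 : Tendsto (fun N : ℕ => C * (1 + Real.log N) / (N : ℝ) ^ (2 * δ)) atTop (nhds 0) := by
    have h2 : Tendsto (fun N : ℝ => C * (1 + Real.log N) / N ^ (2 * δ)) atTop (nhds 0) := by
      have h3 : Tendsto (fun N : ℝ => 1 / N ^ (2 * δ)) atTop (nhds 0) := by
        simp only [one_div]
        exact (tendsto_rpow_atTop (by positivity)).inv_tendsto_atTop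
      have h4 : Tendsto (fun N : ℝ => Real.log N / N ^ (2 * δ)) atTop (nhds 0) :=
        (isLittleO_log_rpow_atTop (by positivity)).tendsto_div_nhds_zero
      have h5 := (h3.add h4).const_mul C
      rw [add_zero, mul_zero] at h5
      refine h5.congr fun N => ?_
      ring
    exact h2.comp tendsto_natCast_atTop_atTop
  filter_upwards [h1.eventually (ge_mem_nhds (show (0 : ℝ) < 1 by norm_num)), eventually_ge_atTop 1]
    with N h2 h3
  have hN0 : (0 : ℝ) < N := by exact_mod_cast h3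
  have h4 := hN N h3
  rw [div_le_one (Real.rpow_pos_of_pos hN0 _)] at h2
  have h5 : ‖Sq (XX τ y) N‖ ^ 2 ≤ ((N : ℝ) ^ s) ^ 2 := by
    calc _ ≤ C * (N : ℝ) ^ (2 - 2 / τ) * (1 + Real.log N) := h4
      _ = (N : ℝ) ^ (2 - 2 / τ) * (C * (1 + Real.log N)) := by ring
      _ ≤ (N : ℝ) ^ (2 - 2 / τ) * (N : ℝ) ^ (2 * δ) :=
          mul_le_mul_of_nonneg_left h2 (by positivity)
      _ = ((N : ℝ) ^ s) ^ 2 := by
          rw [← Real.rpow_add hN0, ← Real.rpow_natCast, ← Real.rpow_mul hN0.le]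
          congr 1
          rw [hδ]; push_cast; ring
  exact le_of_sq_le_sq h5 (by positivity)

theorem family_lower (τ : ℝ) (hτ : 3 < τ) (y : ℝ) (hy0 : 0 ≤ y) (hy1 : y < 1) (s : ℝ)
    (hs : s < 1 - 1 / τ) : ∃ᶠ N : ℕ in atTop, (N : ℝ) ^ s ≤ ‖Sq (XX τ y) N‖ := by
  have hA := XX_apx hτ.le y hy0 hy1
  have hτ0 : 0 < τ := by linarith
  set δ : ℝ := (1 - 1 / τ) - s with hδ
  have hδ0 : 0 < δ := by linarith
  -- the numbers `N_k = 3 ^ (m_k - 2)`
  have key : ∀ᶠ k : ℕ in atTop, (((3 ^ (mm τ k - 2) : ℕ) : ℝ)) ^ s ≤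
      ‖Sq (XX τ y) (3 ^ (mm τ k - 2))‖ := by
    have h1 : ∀ᶠ k : ℕ in atTop, 5 ≤ (τ - 3) * k := by
      have : Tendsto (fun k : ℕ => (τ - 3) * (k : ℝ)) atTop atTop :=
        Tendsto.const_mul_atTop (by linarith) tendsto_natCast_atTop_atTop
      exact this.eventually_ge_atTop 5
    have h2 : ∀ᶠ k : ℕ in atTop, 36 ≤ (3 : ℝ) ^ (δ * k) := by
      have h3 : Tendsto (fun k : ℕ => δ * (k : ℝ)) atTop atTop :=
        Tendsto.const_mul_atTop hδ0 tendsto_natCast_atTop_atTop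
      have h4 : Tendsto (fun k : ℕ => (3 : ℝ) ^ (δ * (k : ℝ))) atTop atTop :=
        (tendsto_rpow_atTop_of_base_gt_one 3 (by norm_num)).comp h3
      exact h4.eventually_ge_atTop 36
    filter_upwards [h1, h2] with k h1 h2
    obtain ⟨a, β, h3a, hx, hβ1, hβ2⟩ := hA.app k
    have hnk : (k : ℝ) + 1 ≤ nn τ k := by exact_mod_cast nn_ge τ hτ.le k
    have hlo := mm_lo τ k
    have hmk : 3 * nn τ k + 5 ≤ mm τ k := by
      have : 3 * (nn τ k : ℝ) + 5 ≤ mm τ k := by nlinarith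
      exact_mod_cast this
    obtain ⟨M, hM⟩ : ∃ M, M = 3 ^ (mm τ k - 2 - 2 * nn τ k) := ⟨_, rfl⟩
    have hN : 3 ^ (mm τ k - 2) = M * 9 ^ (nn τ k) := by
      rw [hM, show (9 : ℕ) = 3 ^ 2 by norm_num, ← pow_mul, ← pow_add]
      congr 1; omega
    have hM12 : 12 * 3 ^ (nn τ k) ≤ M := by
      rw [hM]
      calc 12 * 3 ^ (nn τ k) ≤ 3 ^ 3 * 3 ^ (nn τ k) := Nat.mul_le_mul_right _ (by norm_num)
        _ = 3 ^ (3 + nn τ k) := by rw [pow_add]
        _ ≤ _ := Nat.pow_le_pow_right (by norm_num) (by omega)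
    have hNR : (M : ℝ) * 9 ^ (nn τ k) = 3 ^ (mm τ k - 2) := by exact_mod_cast hN.symm
    have hβ0 : 0 ≤ β := le_trans (by positivity) hβ1
    have h9 : (9 : ℝ) ^ (mm τ k) = 81 * ((3 : ℝ) ^ (mm τ k - 2)) ^ 2 := by
      obtain ⟨j, hj⟩ : ∃ j, mm τ k = j + 2 := ⟨mm τ k - 2, by omega⟩
      rw [hj, Nat.add_sub_cancel, show (9 : ℝ) = 3 ^ 2 by norm_num, ← pow_mul, ← pow_mul]
      rw [show 2 * (j + 2) = 4 + j * 2 by ring, pow_add]
      norm_num
    have hβ : 6 * (β * ((M : ℝ) * 9 ^ (nn τ k)) ^ 2) ≤ 1 := by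
      rw [hNR]
      have hp : (0 : ℝ) < ((3 : ℝ) ^ (mm τ k - 2)) ^ 2 := by positivity
      rw [one_div_pow, h9] at hβ2
      have : β * ((3 : ℝ) ^ (mm τ k - 2)) ^ 2 ≤ 3 / 81 := by
        calc β * ((3 : ℝ) ^ (mm τ k - 2)) ^ 2 ≤
            3 * (1 / (81 * ((3 : ℝ) ^ (mm τ k - 2)) ^ 2)) * ((3 : ℝ) ^ (mm τ k - 2)) ^ 2 :=
              mul_le_mul_of_nonneg_right hβ2 hp.le
          _ = 3 / 81 := by field_simp
      linarith
    have hmain := lower_main (XX τ y) β a h3a (nn τ k) M hx hβ0 hβ hM12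
    rw [← hN] at hmain
    refine le_trans ?_ hmain
    -- numerical comparison
    have e1 : (3 : ℝ) ^ (nn τ k) * M / 4 = (3 : ℝ) ^ ((mm τ k : ℝ) - nn τ k) / 36 := by
      rw [hM]; push_cast
      rw [← pow_add, ← Real.rpow_natCast 3 (nn τ k + (mm τ k - 2 - 2 * nn τ k))]
      have e2 : ((nn τ k + (mm τ k - 2 - 2 * nn τ k) : ℕ) : ℝ) = (mm τ k : ℝ) - nn τ k - 2 := by
        rw [Nat.cast_add, Nat.cast_sub (by omega), Nat.cast_sub (by omega)]
        push_cast; ring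
      rw [e2, Real.rpow_sub (by norm_num)]
      norm_num
      ring
    rw [e1]
    have e3 : (((3 ^ (mm τ k - 2) : ℕ) : ℝ)) ^ s ≤ (3 : ℝ) ^ ((mm τ k : ℝ) * s) ⊔ 1 := by
      push_cast
      rw [← Real.rpow_natCast 3 (mm τ k - 2), ← Real.rpow_mul (by norm_num)]
      rcases le_or_gt 0 s with h | h
      · apply le_max_of_le_left
        apply Real.rpow_le_rpow_of_exponent_le (by norm_num)
        apply mul_le_mul_of_nonneg_right _ h
        exact_mod_cast Nat.sub_le _ _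
      · apply le_max_of_le_right
        apply Real.rpow_le_one_of_one_le_of_nonpos (by norm_num)
        exact mul_nonpos_of_nonneg_of_nonpos (by positivity) h.le
    refine e3.trans ?_
    have hm0 : (0 : ℝ) ≤ mm τ k := by positivity
    have hnm : (nn τ k : ℝ) ≤ mm τ k / τ := by
      rw [le_div_iff₀ hτ0]; linarith
    have hkm : (k : ℝ) ≤ mm τ k := by
      have : (nn τ k : ℝ) ≤ mm τ k := by exact_mod_cast mm_ge hτ.le k
      linarith
    rw [le_div_iff₀ (by norm_num)]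
    have h36 : (36 : ℝ) ≤ 3 ^ (δ * (mm τ k : ℝ)) := by
      refine h2.trans ?_
      apply Real.rpow_le_rpow_of_exponent_le (by norm_num)
      exact mul_le_mul_of_nonneg_left hkm hδ0.le
    have hτinv : (mm τ k : ℝ) * (1 - 1 / τ) ≤ (mm τ k : ℝ) - nn τ k := by
      have : (mm τ k : ℝ) * (1 - 1 / τ) = mm τ k - mm τ k / τ := by ring
      linarith
    rcases le_or_gt ((3 : ℝ) ^ ((mm τ k : ℝ) * s)) 1 with h | h
    · rw [max_eq_right h, one_mul]
      calc (36 : ℝ) ≤ 3 ^ 5 := by norm_num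
        _ = (3 : ℝ) ^ ((5 : ℕ) : ℝ) := by rw [Real.rpow_natCast]
        _ ≤ _ := by
            apply Real.rpow_le_rpow_of_exponent_le (by norm_num)
            have : (3 : ℝ) * nn τ k + 5 ≤ mm τ k := by exact_mod_cast hmk
            have h0 : (0 : ℝ) ≤ nn τ k := by positivity
            push_cast
            linarith
    · rw [max_eq_left h.le]
      calc (3 : ℝ) ^ ((mm τ k : ℝ) * s) * 36 ≤ (3 : ℝ) ^ ((mm τ k : ℝ) * s) * 3 ^ (δ * (mm τ k : ℝ)) :=
            mul_le_mul_of_nonneg_left h36 (by positivity)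
        _ = (3 : ℝ) ^ ((mm τ k : ℝ) * s + δ * (mm τ k : ℝ)) := by rw [← Real.rpow_add (by norm_num)]
        _ ≤ _ := by
            apply Real.rpow_le_rpow_of_exponent_le (by norm_num)
            have : (mm τ k : ℝ) * s + δ * mm τ k = mm τ k * (1 - 1 / τ) := by rw [hδ]; ring
            linarith
  have htend : Tendsto (fun k => 3 ^ (mm τ k - 2)) atTop (atTop : Filter ℕ) := by
    have h1 : Tendsto (fun k => mm τ k - 2) atTop atTop := by
      apply tendsto_atTop_mono' atTop _ (tendsto_sub_atTop_nat 1)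
      filter_upwards with k
      have h2 := nn_ge τ hτ.le k
      have h3 := mm_ge hτ.le k
      omega
    exact (tendsto_pow_atTop_atTop_of_one_lt (by norm_num)).comp h1
  exact htend.frequently (p := fun N : ℕ => (N : ℝ) ^ s ≤ ‖Sq (XX τ y) N‖) key.frequently

end Pool.Agent.J4.H24.WS
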